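import Pool.Agent.Work.MP_f04a5a_co.Lob.Search

/-! The alphabet: all spine pairs of a lobster contraction. -/

namespace LobW

/-- The 77 letters. -/
def alphL : List Lt :=
  [(0, []),
   (0, [1]),
   (0, [1, 2]),
   (0, [1, 3]),
   (0, [1, 2, 3]),
   (0, [1, 3, 3]),
   (0, [1, 2, 3, 3]),
   (0, [1, 1]),
   (0, [1, 1, 4]),
   (0, [1, 1, 5]),
   (0, [1, 1, 4, 5]),
   (0, [1, 1, 5, 5]),
   (0, [1, 1, 4, 5, 5]),
   (0, [1, 2, 1, 6]),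
   (0, [1, 2, 1, 7]),
   (0, [1, 2, 1, 6, 7]),
   (0, [1, 2, 1, 7, 7]),
   (0, [1, 2, 1, 6, 7, 7]),
   (0, [1, 3, 1, 7]),
   (0, [1, 3, 1, 6, 7]),
   (0, [1, 3, 1, 7, 7]),
   (0, [1, 3, 1, 6, 7, 7]),
   (0, [1, 2, 3, 1, 8, 9]),
   (0, [1, 2, 3, 1, 9, 9]),
   (0, [1, 2, 3, 1, 8, 9, 9]),
   (0, [1, 3, 3, 1, 9, 9]),
   (0, [1, 3, 3, 1, 8, 9, 9]),
   (0, [1, 2, 3, 3, 1, 10, 11, 11]),
   (1, []),
   (1, [1]),
   (1, [1, 2]),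
   (1, [1, 3]),
   (1, [1, 2, 3]),
   (1, [1, 3, 3]),
   (1, [1, 2, 3, 3]),
   (1, [0]),
   (1, [0, 1]),
   (1, [0, 1, 4]),
   (1, [0, 1, 5]),
   (1, [0, 1, 4, 5]),
   (1, [0, 1, 5, 5]),
   (1, [0, 1, 4, 5, 5]),
   (1, [0, 2]),
   (1, [0, 2, 1]),
   (1, [0, 2, 1, 6]),
   (1, [0, 2, 1, 7]),
   (1, [0, 2, 1, 6, 7]),
   (1, [0, 2, 1, 7, 7]),
   (1, [0, 2, 1, 6, 7, 7]),
   (1, [0, 3]),
   (1, [0, 3, 1]),
   (1, [0, 3, 1, 6]),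
   (1, [0, 3, 1, 7]),
   (1, [0, 3, 1, 6, 7]),
   (1, [0, 3, 1, 7, 7]),
   (1, [0, 3, 1, 6, 7, 7]),
   (1, [0, 2, 3]),
   (1, [0, 2, 3, 1]),
   (1, [0, 2, 3, 1, 8]),
   (1, [0, 2, 3, 1, 9]),
   (1, [0, 2, 3, 1, 8, 9]),
   (1, [0, 2, 3, 1, 9, 9]),
   (1, [0, 2, 3, 1, 8, 9, 9]),
   (1, [0, 3, 3]),
   (1, [0, 3, 3, 1]),
   (1, [0, 3, 3, 1, 8]),
   (1, [0, 3, 3, 1, 9]),
   (1, [0, 3, 3, 1, 8, 9]),
   (1, [0, 3, 3, 1, 9, 9]),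
   (1, [0, 3, 3, 1, 8, 9, 9]),
   (1, [0, 2, 3, 3]),
   (1, [0, 2, 3, 3, 1]),
   (1, [0, 2, 3, 3, 1, 10]),
   (1, [0, 2, 3, 3, 1, 11]),
   (1, [0, 2, 3, 3, 1, 10, 11]),
   (1, [0, 2, 3, 3, 1, 11, 11]),
   (1, [0, 2, 3, 3, 1, 10, 11, 11])]

instance decOkP : ∀ (k : ℕ) (r : List ℕ), Decidable (okP k r)
  | _, [] => isTrue trivial
  | k, p :: r => @instDecidableAnd _ _ (inferInstance) (decOkP (k + 1) r)

instance (l : Lt) : Decidable (okL l) := @instDecidableAnd _ _ (inferInstance) (decOkP 1 l.2)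

theorem alphL_ok : ∀ l ∈ alphL, okL l := by decide +kernel

/-- The letter with a given number. -/
noncomputable def al (b : ℕ) : Lt := nth alphL b

theorem al_ok (b : ℕ) : okL (al b) := nth_ok alphL_ok b

theorem good_nd {key M : ℕ} {F : List (ℕ × List ℕ)} {ch nx : Tr}
    (h1 : (okG al (al key :: []) F && Nat.beq M (mkM F)) = true)
    (h2 : chkT al ch (al key :: []) = true) (h3 : good al nx []) :
    good al (.nd key M F ch nx) [] := good_nd_aux al al_ok h1 h2 h3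

theorem okM_of_and {M : ℕ} {u : List Lt} {F : List (ℕ × List ℕ)} (oku : okW u)
    (h : (okG al u F && Nat.beq M (mkM F)) = true) : okM al M u := by
  rw [Bool.and_eq_true] at h
  exact okM_of_check al al_ok oku h.1 h.2

end LobW
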