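import Pool.Agent.Work.MP_f04a5a_co.Lob.TreeWord
import Pool.Agent.Work.MP_f04a5a_co.Lob.Alph

/-! The word of a tree whose contraction is a lobster. -/

namespace LobW

theorem alph_D : ∀ i < 2, ∀ j < 3, ∀ i' < 2, ∀ j' < 3,
    ((1, rpl 1 0 [(i, j)] ++ rpl (1 + szs [(i, j)]) 1 [(i', j')]) : Lt) ∈ alphL := by
  intro i hi j hj i' hi' j' hj'
  interval_cases i <;> interval_cases j <;> interval_cases i' <;> interval_cases j' <;>
    decide +kernel

theorem alph_D1 : ∀ i < 2, ∀ j < 3,
    ((1, rpl 1 0 [(i, j)] ++ rpl (1 + szs [(i, j)]) 1 []) : Lt) ∈ alphL := by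
  decide +kernel

theorem alph_D2 : ∀ i < 2, ∀ j < 3,
    ((1, rpl 1 0 [] ++ rpl (1 + szs []) 1 [(i, j)]) : Lt) ∈ alphL := by
  decide +kernel

theorem alph_D0 : ((1, rpl 1 0 [] ++ rpl (1 + szs []) 1 []) : Lt) ∈ alphL := by
  decide +kernel

theorem alph_S2 : ∀ i < 2, ∀ j < 3, ∀ i' < 2, ∀ j' < 3,
    ((0, rpl 1 0 [] ++ rpl (1 + szs []) 1 [(i, j), (i', j')]) : Lt) ∈ alphL ∨
    ((0, rpl 1 0 [] ++ rpl (1 + szs []) 1 [(i', j'), (i, j)]) : Lt) ∈ alphL := by
  intro i hi j hj i' hi' j' hj'
  interval_cases i <;> interval_cases j <;> interval_cases i' <;> interval_cases j' <;>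
    decide +kernel

theorem alph_S1 : ∀ i < 2, ∀ j < 3,
    ((0, rpl 1 0 [] ++ rpl (1 + szs []) 1 [(i, j)]) : Lt) ∈ alphL := by
  decide +kernel

theorem alph_S0 : ((0, rpl 1 0 [] ++ rpl (1 + szs []) 1 []) : Lt) ∈ alphL := by
  decide +kernel

/-- The letter of a spine pair. -/
def ltr (x : ℕ) (P Q : List (ℕ × ℕ)) : Lt := (x, rpl 1 0 P ++ rpl (1 + szs P) 1 Q)

variable {V P : Type*} [Fintype V] [Fintype P] {T : SimpleGraph V} {m : V → V} {pr : V → P}
  {L : List P} {A Cc : P → V}

/-- Degree count. -/
theorem plist_bound (h : Setup T m pr) (hL : Spine T pr L A Cc) (c : V) (S : Finset V)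
    (hS : ∀ z ∈ S, T.Adj c z ∧ pr z ∉ plist L Cc c) : S.card + (plist L Cc c).length ≤ 3 := by
  classical
  have hinj : ∀ g ∈ plist L Cc c, ∀ g' ∈ plist L Cc c, A g = A g' → g = g' := by
    intro g hg g' hg' he
    rw [← hL.prA g (mem_plist.1 hg).1, he, hL.prA g' (mem_plist.1 hg').1]
  have hcard : ((plist L Cc c).toFinset.image A).card = (plist L Cc c).length := by
    rw [Finset.card_image_of_injOn, List.toFinset_card_of_nodup (nodup_plist c)]
    intro g hg g' hg' he
    exact hinj g (by simpa using hg) g' (by simpa using hg') he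
  have hdis : Disjoint S ((plist L Cc c).toFinset.image A) := by
    rw [Finset.disjoint_left]
    intro z hz hz'
    obtain ⟨g, hg, rfl⟩ := Finset.mem_image.1 hz'
    have hg' := List.mem_toFinset.1 hg
    have := (hS _ hz).2
    rw [hL.prA g (mem_plist.1 hg').1] at this
    exact this hg'
  rw [← hcard, ← Finset.card_union_of_disjoint hdis]
  refine le_trans ?_ (h.deg c)
  rw [← Set.ncard_coe_finset]
  apply Set.ncard_le_ncard _ (Set.toFinite _)
  intro z hz
  rw [Finset.mem_coe, Finset.mem_union] at hz
  rcases hz with hz | hz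
  · exact (hS z hz).1
  · obtain ⟨g, hg, rfl⟩ := Finset.mem_image.1 hz
    have hg' := mem_plist.1 (List.mem_toFinset.1 hg)
    have := hL.adj g hg'.1
    rw [hg'.2] at this
    exact this

theorem tau_bound (h : Setup T m pr) (hL : Spine T pr L A Cc) {g : P} (hg : g ∉ L)
    (hg' : pr (Cc g) ∈ L) : (tau L A Cc m g).1 < 2 ∧ (tau L A Cc m g).2 < 3 := by
  classical
  have hA := hL.prA g hg
  have hgc : pr (Cc g) ≠ g := by
    intro h1
    rw [h1] at hg'
    exact hg hg'
  constructor
  · have := plist_bound h hL (A g) {Cc g, m (A g)} (by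
      intro z hz
      simp only [Finset.mem_insert, Finset.mem_singleton] at hz
      rcases hz with rfl | rfl
      · refine ⟨(hL.adj g hg).symm, ?_⟩
        intro h1
        exact (mem_plist.1 h1).1 hg'
      · refine ⟨h.madj _, ?_⟩
        rw [h.pr_m, hA]
        intro h1
        have := (mem_plist.1 h1).2
        rw [this, hA] at hgc
        exact hgc rfl)
    rw [Finset.card_insert_of_notMem (by
      rw [Finset.mem_singleton]
      intro h1
      rw [h1, h.pr_m, hA] at hgc
      exact hgc rfl), Finset.card_singleton] at this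
    show (plist L Cc (A g)).length < 2
    omega
  · have := plist_bound h hL (m (A g)) {A g} (by
      intro z hz
      rw [Finset.mem_singleton] at hz
      subst hz
      refine ⟨(h.madj _).symm, ?_⟩
      rw [hA]
      intro h1
      have := (mem_plist.1 h1).2
      rw [this, h.pr_m, hA] at hgc
      exact hgc rfl)
    rw [Finset.card_singleton] at this
    show (plist L Cc (m (A g))).length < 3
    omega

/-- A block: a letter with its vertices. -/
structure BlockOK (T : SimpleGraph V) (pr : V → P) (L : List P) (Cc : P → V) (e : P) (s x : V)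
    (l : Lt) (b : ℕ → V) : Prop where
  ent : b 0 = s
  ext : b l.1 = x
  adj : ∀ d ∈ esl l, T.Adj (b d.1) (b d.2)
  inj : ∀ i < sz l, ∀ j < sz l, b i = b j → i = j
  hom : ∀ i < sz l, home pr L Cc (b i) = e
  sur : ∀ v, home pr L Cc v = e → ∃ i < sz l, b i = v

theorem block_of_lists (h : Setup T m pr) (hL : Spine T pr L A Cc) {s : V} (hs : pr s ∈ L)
    {R1 R2 : List P} (h1 : R1.Perm (plist L Cc s)) (h2 : R2.Perm (plist L Cc (m s)))
    {x : ℕ} (hx : x = 0 ∨ x = 1) :
    BlockOK T pr L Cc (pr s) s (if x = 0 then s else m s)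
      (ltr x (R1.map (tau L A Cc m)) (R2.map (tau L A Cc m)))
      (fun i => ((bl L A Cc m s (R1 ++ R2))[i]?).getD s) := by
  set X := bl L A Cc m s (R1 ++ R2) with hX
  set l := ltr x (R1.map (tau L A Cc m)) (R2.map (tau L A Cc m)) with hl
  have hR : ∀ g, g ∈ R1 ++ R2 ↔ g ∉ L ∧ (Cc g = s ∨ Cc g = m s) := by
    intro g
    rw [List.mem_append, h1.mem_iff, h2.mem_iff, mem_plist, mem_plist]
    tauto
  have hnd : (R1 ++ R2).Nodup := by
    rw [List.nodup_append]
    refine ⟨h1.nodup_iff.2 (nodup_plist s), h2.nodup_iff.2 (nodup_plist _), ?_⟩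
    rintro g hg g' hg' rfl
    have e1 := (mem_plist.1 (h1.mem_iff.1 hg)).2
    have e2 := (mem_plist.1 (h2.mem_iff.1 hg')).2
    exact h.ne_m s (e1.symm.trans e2)
  have hszs : ∀ (a b : List (ℕ × ℕ)), szs (a ++ b) = szs a + szs b := by
    intro a
    induction a with
    | nil => intro b; simp [szs]
    | cons t a ih => intro b; simp only [List.cons_append, szs, ih]; ring
  have hlen : X.length = sz l := by
    rw [hX, bl, List.length_cons, List.length_cons, flat_length, hl, ltr, sz, List.map_append,
      hszs, List.length_append, rpl_length, rpl_length]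
    ring
  have hget : ∀ i, (hi : i < sz l) → (X[i]?).getD s = X[i]'(by omega) := by
    intro i hi
    rw [List.getElem?_eq_getElem (by omega), Option.getD_some]
  have hndX := nodup_bl h hL hs hR hnd
  refine ⟨rfl, ?_, ?_, ?_, ?_, ?_⟩
  · have hlx : l.1 = x := rfl
    rw [hlx]
    rcases hx with rfl | rfl
    · rfl
    · rfl
  · intro d hd
    have key : Rz T X d := by
      have hX2 : X = ([s, m s] ++ R1.flatMap (pv L A Cc m)) ++ R2.flatMap (pv L A Cc m) := by
        simp [hX, bl, List.flatMap_append]
      have c1 : ∀ g ∈ R1, T.Adj s (A g) := by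
        intro g hg
        obtain ⟨e1, e2⟩ := mem_plist.1 (h1.mem_iff.1 hg)
        have := hL.adj g e1
        rwa [e2] at this
      have c2 : ∀ g ∈ R2, T.Adj (m s) (A g) := by
        intro g hg
        obtain ⟨e1, e2⟩ := mem_plist.1 (h2.mem_iff.1 hg)
        have := hL.adj g e1
        rwa [e2] at this
      have hd' : d ∈ esl (ltr x (R1.map (tau L A Cc m)) (R2.map (tau L A Cc m))) := hd
      rw [esl, List.mem_cons, ltr, eg_append, List.mem_append, rpl_length] at hd'
      rw [hX2]
      rcases hd' with rfl | hd' | hd'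
      · exact Rz.append (Rz.append ⟨s, m s, rfl, rfl, h.madj s⟩ _) _
      · exact (rz_pendants h hL R1 [s, m s] 1 0 c1 rfl rfl d hd').append _
      · refine rz_pendants h hL R2 _ (1 + szs (R1.map (tau L A Cc m))) 1 c2 ?_ rfl d hd'
        rw [List.length_append, flat_length]
        simp only [List.length_cons, List.length_nil]
        ring
    obtain ⟨u, v, e1, e2, e3⟩ := key
    simp only [e1, e2, Option.getD_some]
    exact e3
  · intro i hi j hj hij
    rw [hget i hi, hget j hj] at hij
    exact hndX.getElem_inj_iff.1 hij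
  · intro i hi
    rw [hget i hi, ← mem_bl h hL hs hR]
    exact List.getElem_mem _
  · intro v hv
    rw [← mem_bl h hL hs hR, List.mem_iff_getElem] at hv
    obtain ⟨i, hi, hv⟩ := hv
    have hi' : i < sz l := by rw [← hlen]; exact hi
    refine ⟨i, hi', ?_⟩
    rw [hget i hi', hv]

theorem exists_block (h : Setup T m pr) (hL : Spine T pr L A Cc) {s x : V} (hs : pr s ∈ L)
    (hcase : (x = s ∧ (plist L Cc s).length = 0 ∧ (plist L Cc (m s)).length ≤ 2) ∨
      (x = m s ∧ (plist L Cc s).length ≤ 1 ∧ (plist L Cc (m s)).length ≤ 1)) :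
    ∃ l b, l ∈ alphL ∧ BlockOK T pr L Cc (pr s) s x l b := by
  have hb1 : ∀ g ∈ plist L Cc s, (tau L A Cc m g).1 < 2 ∧ (tau L A Cc m g).2 < 3 := by
    intro g hg
    obtain ⟨h1, h2⟩ := mem_plist.1 hg
    exact tau_bound h hL h1 (by rw [h2]; exact hs)
  have hb2 : ∀ g ∈ plist L Cc (m s), (tau L A Cc m g).1 < 2 ∧ (tau L A Cc m g).2 < 3 := by
    intro g hg
    obtain ⟨h1, h2⟩ := mem_plist.1 hg
    exact tau_bound h hL h1 (by rw [h2, h.pr_m]; exact hs)
  rcases hcase with ⟨rfl, h0, h1⟩ | ⟨rfl, h0, h1⟩
  · rw [List.length_eq_zero_iff] at h0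
    have e0 : ∀ R2 : List P, R2.Perm (plist L Cc (m x)) →
        (ltr 0 [] (R2.map (tau L A Cc m))) ∈ alphL →
        ∃ l b, l ∈ alphL ∧ BlockOK T pr L Cc (pr x) x x l b := by
      intro R2 hR2 hm
      have := block_of_lists h hL hs (R1 := []) (R2 := R2) (by rw [h0]) hR2 (x := 0) (Or.inl rfl)
      rw [if_pos rfl] at this
      exact ⟨_, _, hm, this⟩
    rcases hp : plist L Cc (m x) with _ | ⟨g, _ | ⟨g', _ | ⟨g'', r⟩⟩⟩
    · exact e0 [] (by rw [hp]) alph_S0
    · have := hb2 g (by rw [hp]; simp)
      exact e0 [g] (by rw [hp]) (alph_S1 _ this.1 _ this.2)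
    · have t1 := hb2 g (by rw [hp]; simp)
      have t2 := hb2 g' (by rw [hp]; simp)
      rcases alph_S2 _ t1.1 _ t1.2 _ t2.1 _ t2.2 with h3 | h3
      · exact e0 [g, g'] (by rw [hp]) h3
      · exact e0 [g', g] (by rw [hp]; exact List.Perm.swap _ _ _) h3
    · rw [hp] at h1
      simp at h1
  · have e0 : ∀ R1 R2 : List P, R1.Perm (plist L Cc s) → R2.Perm (plist L Cc (m s)) →
        (ltr 1 (R1.map (tau L A Cc m)) (R2.map (tau L A Cc m))) ∈ alphL →
        ∃ l b, l ∈ alphL ∧ BlockOK T pr L Cc (pr s) s (m s) l b := by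
      intro R1 R2 hR1 hR2 hm
      have := block_of_lists h hL hs (R1 := R1) (R2 := R2) hR1 hR2 (x := 1) (Or.inr rfl)
      rw [if_neg one_ne_zero] at this
      exact ⟨_, _, hm, this⟩
    rcases hq : plist L Cc s with _ | ⟨g, _ | ⟨g', r⟩⟩
    · rcases hp : plist L Cc (m s) with _ | ⟨k, _ | ⟨k', r⟩⟩
      · exact e0 [] [] (by rw [hq]) (by rw [hp]) alph_D0
      · have := hb2 k (by rw [hp]; simp)
        exact e0 [] [k] (by rw [hq]) (by rw [hp]) (alph_D2 _ this.1 _ this.2)
      · rw [hp] at h1
        simp at h1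
    · have t1 := hb1 g (by rw [hq]; simp)
      rcases hp : plist L Cc (m s) with _ | ⟨k, _ | ⟨k', r⟩⟩
      · exact e0 [g] [] (by rw [hq]) (by rw [hp]) (alph_D1 _ t1.1 _ t1.2)
      · have t2 := hb2 k (by rw [hp]; simp)
        exact e0 [g] [k] (by rw [hq]) (by rw [hp]) (alph_D _ t1.1 _ t1.2 _ t2.1 _ t2.2)
      · rw [hp] at h1
        simp at h1
    · rw [hq] at h0
      simp at h0

/-- The word of a final segment of the spine. -/
theorem build (h : Setup T m pr) (hL : Spine T pr L A Cc)
    (hch : L.IsChain (fun e f => ∃ a b, pr a = e ∧ pr b = f ∧ T.Adj a b))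
    (hlast : ∀ L1 e, L = L1 ++ [e] → ∀ c, pr c = e → plist L Cc c = []) :
    ∀ (L' : List P) (e : P) (L1 : List P), L = L1 ++ e :: L' → ∀ s, pr s = e →
      ((∀ c, pr c = e → plist L Cc c = []) ∨ ∃ z, T.Adj z s ∧ pr z ∈ L ∧ pr z ∉ e :: L') →
      ∃ (w : List Lt) (g : ℕ → V), w ≠ [] ∧ (∀ l ∈ w, l ∈ alphL) ∧ g 0 = s ∧
        (∀ d ∈ E w, T.Adj (g d.1) (g d.2)) ∧
        (∀ i < tot w, ∀ j < tot w, g i = g j → i = j) ∧
        (∀ i < tot w, home pr L Cc (g i) ∈ e :: L') ∧
        (∀ v, home pr L Cc v ∈ e :: L' → ∃ i < tot w, g i = v) := by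
  intro L'
  have hspL : ∀ c z, pr z ∈ L → pr z ∉ plist L Cc c := by
    intro c z hz h1
    exact (mem_plist.1 h1).1 hz
  induction L' with
  | nil =>
    intro e L1 hLe s hs _
    have he : e ∈ L := by rw [hLe]; simp
    have hnil := hlast L1 e hLe
    obtain ⟨l, b, hl, hb⟩ := exists_block h hL (s := s) (x := s) (by rw [hs]; exact he)
      (Or.inl ⟨rfl, by rw [hnil s hs]; rfl, by rw [hnil (m s) (by rw [h.pr_m, hs])]; simp⟩)
    rw [hs] at hb
    refine ⟨[l], b, by simp, by simpa using hl, hb.ent, hb.adj, ?_, ?_, ?_⟩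
    · simpa [tot] using hb.inj
    · intro i hi
      rw [hb.hom i (by simpa [tot] using hi)]
      simp
    · intro v hv
      have := hb.sur v (by simpa using hv)
      simpa [tot] using this
  | cons e' L'' ih =>
    intro e L1 hLe s hs hz
    have he : e ∈ L := by rw [hLe]; simp
    have he' : e' ∈ L := by rw [hLe]; simp
    have hnd := hL.nd
    rw [hLe, List.nodup_append] at hnd
    have hnd2 := hnd.2.1
    have hne : e ∉ e' :: L'' := (List.nodup_cons.1 hnd2).1
    -- the link
    have hlink : ∃ a b, pr a = e ∧ pr b = e' ∧ T.Adj a b := by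
      rw [hLe] at hch
      have h2 := (List.isChain_append.1 hch).2.1
      exact (List.isChain_cons_cons.1 h2).1
    obtain ⟨a, b', ha, hb', hab⟩ := hlink
    have hb'e : pr b' ≠ e := by
      rw [hb']; rintro rfl; exact hne (by simp)
    -- the letter
    have hcase : (a = s ∧ (plist L Cc s).length = 0 ∧ (plist L Cc (m s)).length ≤ 2) ∨
      (a = m s ∧ (plist L Cc s).length ≤ 1 ∧ (plist L Cc (m s)).length ≤ 1) := by
      have hpa : pr a = pr s := by rw [ha, hs]
      rw [h.pr_eq] at hpa
      rcases hz with hz | ⟨z, hz1, hz2, hz3⟩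
      · have h1 := hz s hs
        have h2 := hz (m s) (by rw [h.pr_m, hs])
        rw [h1, h2]
        rcases hpa with hpa | hpa
        · left; exact ⟨hpa, rfl, by simp⟩
        · right; exact ⟨hpa, by simp, by simp⟩
      · have hze : pr z ≠ e := by rintro h1; exact hz3 (by rw [h1]; simp)
        have hzb : z ≠ b' := by rintro rfl; exact hz3 (by rw [hb']; simp)
        have hzm : z ≠ m s := by rintro rfl; exact hze (by rw [h.pr_m, hs])
        have hbm : b' ≠ m s := by rintro rfl; exact hb'e (by rw [h.pr_m, hs])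
        have hbs : b' ≠ s := by rintro rfl; exact hb'e hs
        classical
        rcases hpa with rfl | rfl
        · left
          refine ⟨rfl, ?_, ?_⟩
          · have := plist_bound h hL a {m a, z, b'} (by
              intro y hy
              simp only [Finset.mem_insert, Finset.mem_singleton] at hy
              rcases hy with rfl | rfl | rfl
              · exact ⟨h.madj a, hspL _ _ (by rw [h.pr_m, ha]; exact he)⟩
              · exact ⟨hz1.symm, hspL _ _ hz2⟩
              · exact ⟨hab, hspL _ _ (by rw [hb']; exact he')⟩)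
            rw [Finset.card_insert_of_notMem (by simp [hzm.symm, hbm.symm]),
              Finset.card_insert_of_notMem (by simp [hzb]), Finset.card_singleton] at this
            omega
          · have := plist_bound h hL (m a) {a} (by
              intro y hy
              rw [Finset.mem_singleton] at hy
              subst hy
              exact ⟨(h.madj y).symm, hspL _ _ (by rw [ha]; exact he)⟩)
            rw [Finset.card_singleton] at this
            omega
        · right
          refine ⟨rfl, ?_, ?_⟩
          · have := plist_bound h hL s {m s, z} (by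
              intro y hy
              simp only [Finset.mem_insert, Finset.mem_singleton] at hy
              rcases hy with rfl | rfl
              · exact ⟨h.madj s, hspL _ _ (by rw [ha]; exact he)⟩
              · exact ⟨hz1.symm, hspL _ _ hz2⟩)
            rw [Finset.card_insert_of_notMem (by simp [hzm.symm]), Finset.card_singleton] at this
            omega
          · have := plist_bound h hL (m s) {s, b'} (by
              intro y hy
              simp only [Finset.mem_insert, Finset.mem_singleton] at hy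
              rcases hy with rfl | rfl
              · exact ⟨(h.madj y).symm, hspL _ _ (by rw [hs]; exact he)⟩
              · exact ⟨hab, hspL _ _ (by rw [hb']; exact he')⟩)
            rw [Finset.card_insert_of_notMem (by simp [hbs.symm]), Finset.card_singleton] at this
            omega
    obtain ⟨l, b, hl, hb⟩ := exists_block h hL (s := s) (x := a) (by rw [hs]; exact he) hcase
    rw [hs] at hb
    obtain ⟨w, g, hw, hwa, hg0, hgE, hgi, hgh, hgs⟩ := ih e' (L1 ++ [e]) (by rw [hLe]; simp) b' hb'
      (Or.inr ⟨a, hab, by rw [ha]; exact he, by rw [ha]; exact hne⟩)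
    have hlo : ∀ i, i < sz l → (if i < sz l then b i else g (i - sz l)) = b i :=
      fun i hi => if_pos hi
    have hhi : ∀ i, (if sz l + i < sz l then b (sz l + i) else g (sz l + i - sz l)) = g i := by
      intro i
      rw [if_neg (by omega), Nat.add_sub_cancel_left]
    have hsl := sz_pos l
    have okl := alphL_ok l hl
    refine ⟨l :: w, fun i => if i < sz l then b i else g (i - sz l), by simp, ?_, ?_, ?_, ?_, ?_,
      ?_⟩
    · intro l' hl'
      rcases List.mem_cons.1 hl' with rfl | hl'
      · exact hl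
      · exact hwa l' hl'
    · simp only
      rw [hlo 0 (by omega)]
      exact hb.ent
    · intro d hd
      rw [E_cons l hw, List.mem_append, List.mem_cons] at hd
      simp only
      rcases hd with hd | rfl | hd
      · have := esl_lt okl d hd
        rw [hlo _ (by omega), hlo _ (by omega)]
        exact hb.adj d hd
      · simp only
        have h0 := hhi 0
        rw [add_zero] at h0
        rw [hlo _ (exi_lt okl), h0, hb.ext, hg0]
        exact hab
      · obtain ⟨d', hd', rfl⟩ := mem_shf.1 hd
        simp only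
        rw [hhi, hhi]
        exact hgE d' hd'
    · intro i hi j hj hij
      simp only [tot] at hi hj
      simp only at hij
      split_ifs at hij with h1 h2 h2
      · exact hb.inj i h1 j h2 hij
      · exfalso
        have h3 := hb.hom i h1
        have h4 := hgh (j - sz l) (by omega)
        rw [← hij, h3] at h4
        exact hne h4
      · exfalso
        have h3 := hb.hom j h2
        have h4 := hgh (i - sz l) (by omega)
        rw [hij, h3] at h4
        exact hne h4
      · have := hgi (i - sz l) (by omega) (j - sz l) (by omega) hij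
        omega
    · intro i hi
      simp only [tot] at hi
      simp only
      split_ifs with h1
      · rw [hb.hom i h1]; simp
      · exact List.mem_cons_of_mem _ (hgh (i - sz l) (by omega))
    · intro v hv
      rcases List.mem_cons.1 hv with hv | hv
      · obtain ⟨i, hi, h1⟩ := hb.sur v hv
        refine ⟨i, by simp only [tot]; omega, ?_⟩
        simp only
        rw [hlo i hi, h1]
      · obtain ⟨i, hi, h1⟩ := hgs v hv
        refine ⟨sz l + i, by simp only [tot]; omega, ?_⟩
        simp only
        rw [hhi, h1]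

end LobW
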