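import Pool.Agent.Work.MP_f04a5a_co.Lob.Defs

/-! A checker for labelled words, and its soundness. -/

namespace LobW

/-- Digit `i` in base `64`. -/
def dg (code i : ℕ) : ℕ := Nat.land (Nat.shiftRight code (Nat.mul 6 i)) 63

theorem dg_lt (code i : ℕ) : dg code i < 64 := by
  have : dg code i = (code >>> (6 * i)) &&& 63 := rfl
  rw [this]
  exact lt_of_le_of_lt Nat.and_le_right (by norm_num)

theorem dg_shift (code s i : ℕ) : dg (Nat.shiftRight code (Nat.mul 6 s)) i = dg code (s + i) := by
  have h1 : dg (Nat.shiftRight code (Nat.mul 6 s)) i =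
    ((code >>> (6 * s)) >>> (6 * i)) &&& 63 := rfl
  have h2 : dg code (s + i) = (code >>> (6 * (s + i))) &&& 63 := rfl
  rw [h1, h2, ← Nat.shiftRight_add]
  congr 2
  ring

/-- One bit. -/
def bt (i : ℕ) : ℕ := Nat.shiftLeft 1 i

/-- The bit of an edge. -/
def ed (a b : ℕ) : ℕ := Nat.shiftLeft 18446744073709551616 (Nat.add a b)

theorem testBit_bt {i j : ℕ} : (bt i).testBit j = true ↔ i = j := by
  have : bt i = 1 <<< i := rfl
  rw [this, Nat.one_shiftLeft, Nat.testBit_two_pow]
  simp

theorem testBit_sh {i j : ℕ} : (Nat.shiftLeft 18446744073709551616 i).testBit j = true ↔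
    64 + i = j := by
  have : Nat.shiftLeft 18446744073709551616 i = 2 ^ (64 + i) := by
    have h : Nat.shiftLeft 18446744073709551616 i = 18446744073709551616 <<< i := rfl
    rw [h, Nat.shiftLeft_eq, pow_add]
    norm_num
  rw [this, Nat.testBit_two_pow]
  simp

theorem testBit_ed {a b j : ℕ} : (ed a b).testBit j = true ↔ 64 + (a + b) = j := testBit_sh

theorem testBit_lor {a b j : ℕ} :
    (Nat.lor a b).testBit j = true ↔ a.testBit j = true ∨ b.testBit j = true := by
  have : Nat.lor a b = a ||| b := rfl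
  rw [this, Nat.testBit_or, Bool.or_eq_true]

/-- The bits of the pairs attached to the vertices in the list, the first pair having the vertices
`k`, `k + 1`. -/
noncomputable def wp (C : ℕ) (r : List ℕ) : ℕ → ℕ :=
  List.rec (motive := fun _ => ℕ → ℕ) (fun _ => 0)
    (fun p _ ih k => Nat.lor (bt (dg C k)) (Nat.lor (bt (dg C (Nat.succ k)))
      (Nat.lor (ed (dg C p) (dg C k)) (Nat.lor (ed (dg C k) (dg C (Nat.succ k)))
        (ih (Nat.add k 2)))))) r

theorem wp_cons (C p : ℕ) (r : List ℕ) (k : ℕ) :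
    wp C (p :: r) k = Nat.lor (bt (dg C k)) (Nat.lor (bt (dg C (k + 1)))
      (Nat.lor (ed (dg C p) (dg C k)) (Nat.lor (ed (dg C k) (dg C (k + 1)))
        (wp C r (k + 2))))) := rfl

theorem wp_spec (C : ℕ) : ∀ (r : List ℕ) (k j : ℕ), (wp C r (2 * k)).testBit j = true ↔
    (∃ i, 2 * k ≤ i ∧ i < 2 * (k + r.length) ∧ dg C i = j) ∨
    (∃ e ∈ eg k r, 64 + (dg C e.1 + dg C e.2) = j) := by
  intro r
  induction r with
  | nil =>
    intro k j
    have : wp C [] (2 * k) = 0 := rfl
    rw [this, Nat.zero_testBit]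
    constructor
    · intro h; simp at h
    · rintro (⟨i, h1, h2, -⟩ | ⟨e, he, -⟩)
      · simp only [List.length_nil] at h2; omega
      · simp [eg] at he
  | cons p r ih =>
    intro k j
    have h2 : 2 * k + 2 = 2 * (k + 1) := by ring
    rw [wp_cons, testBit_lor, testBit_lor, testBit_lor, testBit_lor, testBit_bt, testBit_bt,
      testBit_ed, testBit_ed, h2, ih (k + 1)]
    simp only [eg, List.mem_cons, List.length_cons]
    constructor
    · rintro (h | h | h | h | ⟨i, h1, h2, h⟩ | ⟨e, he, h⟩)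
      · exact Or.inl ⟨2 * k, le_rfl, by omega, h⟩
      · exact Or.inl ⟨2 * k + 1, by omega, by omega, h⟩
      · exact Or.inr ⟨(p, 2 * k), Or.inl rfl, h⟩
      · exact Or.inr ⟨(2 * k, 2 * k + 1), Or.inr (Or.inl rfl), h⟩
      · exact Or.inl ⟨i, by omega, by omega, h⟩
      · exact Or.inr ⟨e, Or.inr (Or.inr he), h⟩
    · rintro (⟨i, h1, h2, h⟩ | ⟨e, he, h⟩)
      · by_cases h3 : i = 2 * k
        · subst h3; exact Or.inl h
        · by_cases h4 : i = 2 * k + 1
          · subst h4; exact Or.inr (Or.inl h)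
          · exact Or.inr (Or.inr (Or.inr (Or.inr (Or.inl ⟨i, by omega, by omega, h⟩))))
      · rcases he with rfl | rfl | he
        · exact Or.inr (Or.inr (Or.inl h))
        · exact Or.inr (Or.inr (Or.inr (Or.inl h)))
        · exact Or.inr (Or.inr (Or.inr (Or.inr (Or.inr ⟨e, he, h⟩))))

/-- The bits of a word. -/
noncomputable def wm (w : List Lt) : ℕ → ℕ → ℕ :=
  List.rec (motive := fun _ => ℕ → ℕ → ℕ) (fun _ _ => 0)
    (fun l _ ih code pm => Nat.lor (Nat.shiftLeft pm (dg code 0)) (Nat.lor (bt (dg code 0))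
      (Nat.lor (bt (dg code 1)) (Nat.lor (ed (dg code 0) (dg code 1)) (Nat.lor (wp code l.2 2)
      (ih (Nat.shiftRight code (Nat.mul 6 (sz l)))
        (Nat.shiftLeft 18446744073709551616 (dg code l.1)))))))) w

theorem wm_cons (l : Lt) (w : List Lt) (code pm : ℕ) :
    wm (l :: w) code pm = Nat.lor (Nat.shiftLeft pm (dg code 0)) (Nat.lor (bt (dg code 0))
      (Nat.lor (bt (dg code 1)) (Nat.lor (ed (dg code 0) (dg code 1)) (Nat.lor (wp code l.2 2)
      (wm w (Nat.shiftRight code (Nat.mul 6 (sz l)))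
        (Nat.shiftLeft 18446744073709551616 (dg code l.1))))))) := rfl

theorem testBit_sh2 {a b j : ℕ} :
    (Nat.shiftLeft (Nat.shiftLeft 18446744073709551616 a) b).testBit j = true ↔
      64 + (a + b) = j := by
  have : Nat.shiftLeft (Nat.shiftLeft 18446744073709551616 a) b =
      Nat.shiftLeft 18446744073709551616 (a + b) := by
    have h : Nat.shiftLeft (Nat.shiftLeft 18446744073709551616 a) b =
      (18446744073709551616 <<< a) <<< b := rfl
    have h' : Nat.shiftLeft 18446744073709551616 (a + b) =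
      18446744073709551616 <<< (a + b) := rfl
    rw [h, h', ← Nat.shiftLeft_add]
  rw [this]
  exact testBit_sh

theorem letter_spec (l : Lt) (code j : ℕ) :
    ((bt (dg code 0)).testBit j = true ∨ (bt (dg code 1)).testBit j = true ∨
      (ed (dg code 0) (dg code 1)).testBit j = true ∨ (wp code l.2 2).testBit j = true) ↔
    (∃ i < sz l, dg code i = j) ∨ (∃ e ∈ esl l, 64 + (dg code e.1 + dg code e.2) = j) := by
  have h2 : (2 : ℕ) = 2 * 1 := rfl
  rw [testBit_bt, testBit_bt, testBit_ed]
  conv_lhs => rw [h2]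
  rw [wp_spec code l.2 1 j]
  simp only [esl, List.mem_cons, sz]
  constructor
  · rintro (h | h | h | ⟨i, h1, h2, h⟩ | ⟨e, he, h⟩)
    · exact Or.inl ⟨0, by omega, h⟩
    · exact Or.inl ⟨1, by omega, h⟩
    · exact Or.inr ⟨(0, 1), Or.inl rfl, h⟩
    · exact Or.inl ⟨i, by omega, h⟩
    · exact Or.inr ⟨e, Or.inr he, h⟩
  · rintro (⟨i, h1, h⟩ | ⟨e, he, h⟩)
    · by_cases h3 : i = 0
      · subst h3; exact Or.inl h
      · by_cases h4 : i = 1
        · subst h4; exact Or.inr (Or.inl h)
        · exact Or.inr (Or.inr (Or.inr (Or.inl ⟨i, by omega, by omega, h⟩)))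
    · rcases he with rfl | he
      · exact Or.inr (Or.inr (Or.inl h))
      · exact Or.inr (Or.inr (Or.inr (Or.inr ⟨e, he, h⟩)))

theorem wm_spec {w : List Lt} (hw : w ≠ []) : ∀ (code pm j : ℕ),
    (wm w code pm).testBit j = true ↔ (Nat.shiftLeft pm (dg code 0)).testBit j = true ∨
      (∃ i < tot w, dg code i = j) ∨
      (∃ e ∈ E w, 64 + (dg code e.1 + dg code e.2) = j) := by
  induction w with
  | nil => exact absurd rfl hw
  | cons l w ih =>
    intro code pm j
    rw [wm_cons, testBit_lor, testBit_lor, testBit_lor, testBit_lor, testBit_lor]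
    have hl := letter_spec l code j
    have hassoc : ∀ {a b c d e f : Prop}, (a ∨ b ∨ c ∨ d ∨ e ∨ f) ↔ (a ∨ (b ∨ c ∨ d ∨ e) ∨ f) := by
      intro a b c d e f; tauto
    rw [hassoc, hl]
    by_cases h : w = []
    · subst h
      have : wm [] (Nat.shiftRight code (Nat.mul 6 (sz l)))
        (Nat.shiftLeft 18446744073709551616 (dg code l.1)) = 0 := rfl
      rw [this, Nat.zero_testBit, E_single]
      simp [tot]
    · rw [ih h, E_cons l h, dg_shift, testBit_sh2]
      simp only [dg_shift, tot]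
      constructor
      · rintro (h1 | (⟨i, hi, h1⟩ | ⟨e, he, h1⟩) | h1 | ⟨i, hi, h1⟩ | ⟨e, he, h1⟩)
        · exact Or.inl h1
        · exact Or.inr (Or.inl ⟨i, by omega, h1⟩)
        · exact Or.inr (Or.inr ⟨e, by simp [he], h1⟩)
        · exact Or.inr (Or.inr ⟨(l.1, sz l), by simp, h1⟩)
        · exact Or.inr (Or.inl ⟨sz l + i, by omega, h1⟩)
        · refine Or.inr (Or.inr ⟨(sz l + e.1, sz l + e.2), ?_, h1⟩)
          rw [List.mem_append, List.mem_cons]
          exact Or.inr (Or.inr (mem_shf.2 ⟨e, he, rfl⟩))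
      · rintro (h1 | ⟨i, hi, h1⟩ | ⟨e, he, h1⟩)
        · exact Or.inl h1
        · by_cases hil : i < sz l
          · exact Or.inr (Or.inl (Or.inl ⟨i, hil, h1⟩))
          · refine Or.inr (Or.inr (Or.inr (Or.inl ⟨i - sz l, by omega, ?_⟩)))
            rw [← h1]; congr 1; omega
        · rw [List.mem_append, List.mem_cons] at he
          rcases he with he | rfl | he
          · exact Or.inr (Or.inl (Or.inr ⟨e, he, h1⟩))
          · exact Or.inr (Or.inr (Or.inl h1))
          · obtain ⟨e', he', rfl⟩ := mem_shf.1 he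
            exact Or.inr (Or.inr (Or.inr (Or.inr ⟨e', he', h1⟩)))

/-- The bits which should occur for `n` vertices: `0, ..., n - 1` and `65, 67, ..., 64 + 2 n - 3`. -/
def fl : ℕ → ℕ
  | 0 => 0
  | 1 => 1
  | n + 2 => Nat.lor (bt (n + 1)) (Nat.lor (bt (65 + 2 * n)) (fl (n + 1)))

theorem fl_spec : ∀ (n j : ℕ), (fl n).testBit j = true ↔ j < n ∨ ∃ k, k + 1 < n ∧ j = 65 + 2 * k
  | 0, j => by simp [fl]
  | 1, j => by
    simp only [fl, Nat.testBit_one_eq_true_iff_self_eq_zero]
    constructor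
    · intro h; left; omega
    · rintro (h | ⟨k, hk, -⟩) <;> omega
  | n + 2, j => by
    rw [fl, testBit_lor, testBit_lor, testBit_bt, testBit_bt, fl_spec (n + 1) j]
    constructor
    · rintro (h | h | h | ⟨k, hk, h⟩)
      · left; omega
      · right; exact ⟨n, by omega, h.symm⟩
      · left; omega
      · right; exact ⟨k, by omega, h⟩
    · rintro (h | ⟨k, hk, h⟩)
      · by_cases h' : n + 1 = j
        · exact Or.inl h'
        · exact Or.inr (Or.inr (Or.inl (by omega)))
      · by_cases h' : k = n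
        · subst h'; exact Or.inr (Or.inl h.symm)
        · exact Or.inr (Or.inr (Or.inr ⟨k, by omega, h⟩))

/-- Closed form of `fl`. -/
def flF (n : ℕ) : ℕ :=
  Nat.add (Nat.sub (Nat.shiftLeft 1 n) 1)
    (Nat.shiftLeft (Nat.div (Nat.sub (Nat.shiftLeft 1 (Nat.mul 2 (Nat.sub n 1))) 1) 3) 65)

theorem flF_eq : ∀ n < 64, flF n = fl n := by decide +kernel

/-- Relation with an arbitrary exit label if `y = 5`. -/
def RelB (w : List Lt) (e y : ℕ) : Prop := if y = 5 then ∃ y', Rel w e y' else Rel w e y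

/-- The check of one labelled word; `c` contains the entry label `e` (three bits), the exit label
`y` (three bits, `5` means any exit label) and the code of the labelling. -/
noncomputable def labOK (w : List Lt) (c : ℕ) : Bool :=
  Nat.blt (tot w) 64 && (Nat.beq (wm w (Nat.shiftRight c 6) 0) (flF (tot w)) &&
    (Nat.beq (Nat.div (dg (Nat.shiftRight c 6) 0) 2) (Nat.land c 7) &&
    (Nat.ble (Nat.land c 7) 4 && (Nat.ble (Nat.land (Nat.shiftRight c 3) 7) 5 &&
    (Nat.beq (Nat.land (Nat.shiftRight c 3) 7) 5 ||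
      Nat.beq (Nat.mul 2 (Nat.succ (Nat.add (Nat.div (dg (Nat.shiftRight c 6) (exw w)) 2)
        (Nat.land (Nat.shiftRight c 3) 7)))) (tot w))))))

/-- The entry label. -/
def ce (c : ℕ) : ℕ := Nat.land c 7

/-- The exit label. -/
def cy (c : ℕ) : ℕ := Nat.land (Nat.shiftRight c 3) 7

theorem tot_even (w : List Lt) : ∃ N, tot w = 2 * N := by
  induction w with
  | nil => exact ⟨0, rfl⟩
  | cons l w ih =>
    obtain ⟨N, hN⟩ := ih
    exact ⟨l.2.length + 1 + N, by simp only [tot, sz, hN]; ring⟩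

theorem labOK_rel {w : List Lt} {c : ℕ} (hw : w ≠ []) (ok : okW w) (h : labOK w c = true) :
    ce c < 5 ∧ cy c < 6 ∧ RelB w (ce c) (cy c) := by
  rw [labOK, Bool.and_eq_true, Bool.and_eq_true, Bool.and_eq_true, Bool.and_eq_true,
    Bool.and_eq_true, Bool.or_eq_true] at h
  obtain ⟨h0, h1, h3, h5, h6, h4⟩ := h
  have h5' : ce c ≤ 4 := Nat.le_of_ble_eq_true h5
  have h6' : cy c ≤ 5 := Nat.le_of_ble_eq_true h6
  refine ⟨by omega, by omega, ?_⟩
  generalize hcode : Nat.shiftRight c 6 = code at h1 h3 h4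
  have h0' : tot w < 64 := by simpa [Nat.blt_eq] using h0
  have h1' : wm w code 0 = flF (tot w) := Nat.eq_of_beq_eq_true h1
  have h3' : dg code 0 / 2 = ce c := Nat.eq_of_beq_eq_true h3
  have h4' : cy c = 5 ∨ 2 * (dg code (exw w) / 2 + cy c + 1) = tot w := by
    rcases h4 with h4 | h4
    · exact Or.inl (Nat.eq_of_beq_eq_true h4)
    · exact Or.inr (Nat.eq_of_beq_eq_true h4)
  rw [flF_eq _ h0'] at h1'
  have hbit : ∀ j, ((∃ i < tot w, dg code i = j) ∨
      (∃ e ∈ E w, 64 + (dg code e.1 + dg code e.2) = j)) ↔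
      (j < tot w ∨ ∃ k, k + 1 < tot w ∧ j = 65 + 2 * k) := by
    intro j
    have hz : Nat.shiftLeft 0 (dg code 0) = 0 := by
      have : Nat.shiftLeft 0 (dg code 0) = 0 <<< (dg code 0) := rfl
      rw [this, Nat.zero_shiftLeft]
    rw [← fl_spec, ← h1', wm_spec hw, hz, Nat.zero_testBit]
    simp
  have hlt : ∀ i < tot w, dg code i < tot w := by
    intro i hi
    rcases (hbit (dg code i)).1 (Or.inl ⟨i, hi, rfl⟩) with h | ⟨k, hk, h⟩
    · exact h
    · have := dg_lt code i; omega
  have hsur : ∀ j < tot w, ∃ i < tot w, dg code i = j := by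
    intro j hj
    rcases (hbit j).2 (Or.inl hj) with h | ⟨e, he, h⟩
    · exact h
    · omega
  have hinj : ∀ i < tot w, ∀ j < tot w, dg code i = dg code j → i = j := by
    intro i hi j hj hij
    let F : Fin (tot w) → Fin (tot w) := fun a => ⟨dg code a, hlt a a.2⟩
    have hF : Function.Surjective F := by
      intro b
      obtain ⟨i, hi, h⟩ := hsur b b.2
      exact ⟨⟨i, hi⟩, Fin.ext h⟩
    have hF' : Function.Injective F := Finite.injective_iff_surjective.2 hF
    have := @hF' ⟨i, hi⟩ ⟨j, hj⟩ (Fin.ext hij)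
    exact congrArg Fin.val this
  have hodd : ∀ e ∈ E w, ∃ k, k + 1 < tot w ∧ dg code e.1 + dg code e.2 = 2 * k + 1 := by
    intro e he
    rcases (hbit _).1 (Or.inr ⟨e, he, rfl⟩) with h | ⟨k, hk, h⟩
    · omega
    · exact ⟨k, hk, by omega⟩
  have hcov : ∀ k, k + 1 < tot w → ∃ e ∈ E w, dg code e.1 + dg code e.2 = 2 * k + 1 := by
    intro k hk
    rcases (hbit (65 + 2 * k)).2 (Or.inr ⟨k, hk, rfl⟩) with ⟨i, hi, h⟩ | ⟨e, he, h⟩
    · have := dg_lt code i; omega
    · exact ⟨e, he, by omega⟩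
  have hnd : ((E w).map (fun e => dg code e.1 + dg code e.2)).Nodup := by
    have hlen := E_length hw
    rw [← Multiset.coe_nodup, ← Multiset.toFinset_card_eq_card_iff_nodup]
    apply le_antisymm (Multiset.toFinset_card_le _)
    rw [Multiset.coe_card, List.length_map]
    have hsub : (Finset.range (tot w - 1)).image (fun k => 2 * k + 1) ⊆
        (((E w).map (fun e => dg code e.1 + dg code e.2) : List ℕ) : Multiset ℕ).toFinset := by
      intro x hx
      obtain ⟨k, hk, rfl⟩ := Finset.mem_image.1 hx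
      rw [Finset.mem_range] at hk
      obtain ⟨e, he, h⟩ := hcov k (by omega)
      rw [Multiset.mem_toFinset, Multiset.mem_coe, List.mem_map]
      exact ⟨e, he, h⟩
    have := Finset.card_le_card hsub
    rw [Finset.card_image_of_injective _ (fun a b h => by omega),
      Finset.card_range] at this
    omega
  rw [List.Nodup, List.pairwise_map] at hnd
  obtain ⟨N, hN⟩ := tot_even w
  have hex := hlt _ (exw_lt hw ok)
  have key : ∀ y, 2 * (dg code (exw w) / 2 + y + 1) = tot w → Rel w (ce c) y := by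
    intro y hy
    refine ⟨fun i => dg code i / 2, fun i => decide (dg code i % 2 = 1), ?_, ?_, ?_, ?_, h3', hy⟩
    · intro i hi
      have := hlt i hi
      omega
    · intro i hi j hj hc hl
      apply hinj i hi j hj
      have hc' : (dg code i % 2 = 1) ↔ (dg code j % 2 = 1) := by simpa using hc
      omega
    · intro p hp
      obtain ⟨k, -, h⟩ := hodd p hp
      intro hc
      have hc' : (dg code p.1 % 2 = 1) ↔ (dg code p.2 % 2 = 1) := by simpa using hc
      omega
    · refine hnd.imp_of_mem ?_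
      intro a b ha hb hab
      obtain ⟨k, -, h⟩ := hodd a ha
      obtain ⟨k', -, h'⟩ := hodd b hb
      omega
  rw [RelB]
  split_ifs with h5
  · exact ⟨N - 1 - dg code (exw w) / 2, key _ (by omega)⟩
  · rcases h4' with h4' | h4'
    · exact absurd h4' h5
    · exact key _ h4'

end LobW
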