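import Pool.Agent.Work.MP_f04a5a_co.Lob.Defs
import Pool.Agent.Work.MP_f04a5a_co.LiftSum

/-! A tree which is spelled by a word with a labelling has an alpha-labelling. -/

namespace LobW

open AlpLift

theorem hasAlpha_of_word {V : Type*} [Fintype V] (T : SimpleGraph V) (hT : T.IsTree)
    (w : List Lt) (hw : w ≠ []) (ok : okW w) (g : ℕ → V) (hE : ∀ e ∈ E w, T.Adj (g e.1) (g e.2))
    (hinj : ∀ i < tot w, ∀ j < tot w, g i = g j → i = j) (hsur : ∀ v, ∃ i < tot w, g i = v)
    (hrel : ∃ x y, Rel w x y) : HasAlpha T := by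
  classical
  obtain ⟨x, y, f, c, hf⟩ := hrel
  choose idx hidx hg using hsur
  have hidg : ∀ i < tot w, idx (g i) = i := fun i hi => hinj _ (hidx _) _ hi (hg _)
  have hidinj : ∀ u v, idx u = idx v → u = v := fun u v h => by rw [← hg u, h, hg v]
  have hcard : Fintype.card V = tot w := by
    rw [← Fintype.card_fin (tot w)]
    refine Fintype.card_congr ⟨fun v => ⟨idx v, hidx v⟩, fun i => g i, fun v => hg v, ?_⟩
    intro i
    exact Fin.ext (hidg i i.2)
  have hpw : ∀ a ∈ E w, ∀ b ∈ E w, f a.1 + f a.2 = f b.1 + f b.2 → a = b := by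
    intro a ha b hb hab
    by_contra hne
    have : Std.Symm (fun e e' : ℕ × ℕ => f e.1 + f e.2 ≠ f e'.1 + f e'.2) :=
      ⟨fun _ _ h => h.symm⟩
    exact hf.sum.forall ha hb hne hab
  have hnd : (E w).Nodup := by
    refine hf.sum.imp ?_
    rintro a b h rfl
    exact h rfl
  have hedge : ∀ u v, T.Adj u v → ∃ e ∈ E w, s(g e.1, g e.2) = s(u, v) := by
    let S : Finset (Sym2 V) := (E w).toFinset.image (fun e => s(g e.1, g e.2))
    have hS : S ⊆ T.edgeFinset := by
      intro z hz
      obtain ⟨e, he, rfl⟩ := Finset.mem_image.1 hz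
      rw [SimpleGraph.mem_edgeFinset, SimpleGraph.mem_edgeSet]
      exact hE e (List.mem_toFinset.1 he)
    have hSc : S.card = (E w).length := by
      rw [Finset.card_image_of_injOn, List.toFinset_card_of_nodup hnd]
      intro a ha b hb hab
      have ha' : a ∈ E w := by simpa using ha
      have hb' : b ∈ E w := by simpa using hb
      have h1 := E_lt ok a ha'
      have h2 := E_lt ok b hb'
      simp only [Sym2.eq_iff] at hab
      rcases hab with ⟨h3, h4⟩ | ⟨h3, h4⟩
      · have := hinj _ (by omega) _ (by omega) h3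
        have := hinj _ (by omega) _ (by omega) h4
        ext <;> assumption
      · have := hinj _ (by omega) _ (by omega) h3
        have := hinj _ (by omega) _ (by omega) h4
        omega
    have hcE := hT.card_edgeFinset
    have hlen := E_length hw
    have hSe : S = T.edgeFinset := Finset.eq_of_subset_of_card_le hS (by omega)
    intro u v huv
    have : s(u, v) ∈ S := by
      rw [hSe, SimpleGraph.mem_edgeFinset, SimpleGraph.mem_edgeSet]
      exact huv
    obtain ⟨e, he, h⟩ := Finset.mem_image.1 this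
    exact ⟨e, List.mem_toFinset.1 he, h⟩
  have hedge' : ∀ u v, T.Adj u v → ∃ e ∈ E w, (e = (idx u, idx v) ∨ e = (idx v, idx u)) := by
    intro u v huv
    obtain ⟨e, he, h⟩ := hedge u v huv
    have h1 := E_lt ok e he
    refine ⟨e, he, ?_⟩
    rcases Sym2.eq_iff.1 h with ⟨h3, h4⟩ | ⟨h3, h4⟩
    · left
      rw [← h3, ← h4, hidg _ (by omega), hidg _ (by omega)]
    · right
      rw [← h3, ← h4, hidg _ (by omega), hidg _ (by omega)]
  have hext := hf.ext
  have htot := tot_pos hw
  refine hasAlpha_of_sumForm (p := tot w / 2) (r := tot w / 2) (c := fun v => c (idx v))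
    (a := fun v => f (idx v)) (by omega) (by omega) ?_
  refine ⟨by omega, ?_, ?_, ?_, ?_, ?_⟩
  · intro v _
    have := hf.lt _ (hidx v)
    omega
  · intro v _
    have := hf.lt _ (hidx v)
    omega
  · intro u v hc ha
    exact hidinj _ _ (hf.inj _ (hidx u) _ (hidx v) hc ha)
  · intro u v huv
    obtain ⟨e, he, h⟩ := hedge' u v huv
    have := hf.col e he
    rcases h with rfl | rfl
    · exact this
    · exact this.symm
  · intro u v u' v' huv huv' hs
    obtain ⟨e, he, h⟩ := hedge' u v huv
    obtain ⟨e', he', h'⟩ := hedge' u' v' huv'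
    have heq : e = e' := by
      apply hpw e he e' he'
      rcases h with rfl | rfl <;> rcases h' with rfl | rfl <;> simp only at * <;> omega
    subst heq
    rcases h with rfl | rfl <;> rcases h' with h' | h' <;> rw [Prod.mk.injEq] at h'
    · exact Or.inl ⟨hidinj _ _ h'.1, hidinj _ _ h'.2⟩
    · exact Or.inr ⟨hidinj _ _ h'.1, hidinj _ _ h'.2⟩
    · exact Or.inr ⟨hidinj _ _ h'.2, hidinj _ _ h'.1⟩
    · exact Or.inl ⟨hidinj _ _ h'.2, hidinj _ _ h'.1⟩

end LobW
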