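import Pool.Agent.Work.MP_f04a5a_co.Lob.Build
import Pool.Agent.Work.MP_f04a5a_co.Lob.WordAlpha

/-! Trees with maximum degree three and a perfect matching whose contraction is a lobster have
an alpha-labelling (from the statement that all words can be labelled). -/

namespace LobW

open AlpLift

theorem alpha_of_dominating {V P : Type*} [Fintype V] [Fintype P]
    (hword : ∀ w : List Lt, w ≠ [] → (∀ l ∈ w, l ∈ alphL) → ∃ x y, Rel w x y) (T : SimpleGraph V)
    (hT : T.IsTree) (m : V → V) (pr : V → P) (h : Setup T m pr) (hsurj : ∀ e : P, ∃ v, pr v = e)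
    (R : P → P → Prop) (hR : ∀ e f, R e f ↔ e ≠ f ∧ ∃ a b, pr a = e ∧ pr b = f ∧ T.Adj a b)
    (hdom : ∃ L : List P, L ≠ [] ∧ L.Nodup ∧ L.IsChain R ∧
      ∀ g, g ∈ L ∨ (∃ e ∈ L, R g e) ∨ (∃ f, R g f ∧ ∃ e ∈ L, R f e)) :
    HasAlpha T := by
  classical
  have hsymm : ∀ e f, R e f → R f e := by
    intro e f hef
    obtain ⟨h1, a, b, h2, h3, h4⟩ := (hR e f).1 hef
    exact (hR f e).2 ⟨h1.symm, b, a, h3, h2, h4.symm⟩
  -- a dominating list of maximal length
  let Q : Set ℕ := {n | ∃ L : List P, (L ≠ [] ∧ L.Nodup ∧ L.IsChain R ∧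
    ∀ g, g ∈ L ∨ (∃ e ∈ L, R g e) ∨ (∃ f, R g f ∧ ∃ e ∈ L, R f e)) ∧ L.length = n}
  have hQne : Q.Nonempty := by
    obtain ⟨L, hL⟩ := hdom
    exact ⟨L.length, L, hL, rfl⟩
  have hQb : BddAbove Q := by
    refine ⟨Fintype.card P, ?_⟩
    rintro n ⟨L, hL, rfl⟩
    exact hL.2.1.length_le_card
  obtain ⟨L, ⟨hLne, hLnd, hLch, hLd⟩, hLlen⟩ := Nat.sSup_mem hQne hQb
  have hmax : ∀ L' : List P, L' ≠ [] → L'.Nodup → L'.IsChain R → (∀ e ∈ L, e ∈ L') →
      L'.length ≤ L.length := by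
    intro L' h1 h2 h3 h4
    rw [hLlen]
    refine le_csSup hQb ⟨L', ⟨h1, h2, h3, ?_⟩, rfl⟩
    intro g
    rcases hLd g with h5 | ⟨e, h5, h6⟩ | ⟨f, h5, e, h6, h7⟩
    · exact Or.inl (h4 _ h5)
    · exact Or.inr (Or.inl ⟨e, h4 _ h5, h6⟩)
    · exact Or.inr (Or.inr ⟨f, h5, e, h4 _ h6, h7⟩)
  -- the ends have no neighbours off the spine
  have hfirst : ∀ e L', L = e :: L' → ∀ g, g ∉ L → ¬ R g e := by
    intro e L' hLe g hg hge
    have := hmax (g :: L) (by simp) (List.nodup_cons.2 ⟨hg, hLnd⟩)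
      (by rw [hLe, List.isChain_cons_cons, ← hLe]; exact ⟨hge, hLch⟩)
      (fun e he => List.mem_cons_of_mem _ he)
    simp at this
  have hlast' : ∀ e L1, L = L1 ++ [e] → ∀ g, g ∉ L → ¬ R e g := by
    intro e L1 hLe g hg hge
    have := hmax (L ++ [g]) (by simp)
      (by
        rw [List.nodup_append]
        refine ⟨hLnd, by simp, ?_⟩
        intro a ha b hb
        rw [List.mem_singleton] at hb
        rintro rfl
        exact hg (by rw [← hb]; exact ha))
      (by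
        rw [List.isChain_append]
        refine ⟨hLch, by simp, ?_⟩
        intro x hx y hy
        rw [hLe, List.getLast?_concat, Option.mem_some_iff] at hx
        rw [List.head?_cons, Option.mem_some_iff] at hy
        rw [← hx, ← hy]
        exact hge)
      (fun e he => List.mem_append_left _ he)
    simp at this
  -- attachments
  obtain ⟨v0⟩ : Nonempty V := hT.connected.nonempty
  have hatt : ∀ g, ∃ a c, g ∉ L → pr a = g ∧ T.Adj c a ∧
      (pr c ∈ L ∨ (pr c ∉ L ∧ ∃ e ∈ L, R (pr c) e)) ∧ ((∃ e ∈ L, R g e) → pr c ∈ L) := by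
    intro g
    by_cases hg : g ∈ L
    · exact ⟨v0, v0, fun h => absurd hg h⟩
    · by_cases h0 : ∃ e ∈ L, R g e
      · obtain ⟨e, h1, h2⟩ := h0
        obtain ⟨-, a, b, h3, h4, h5⟩ := (hR g e).1 h2
        refine ⟨a, b, fun _ => ⟨h3, h5.symm, Or.inl ?_, fun _ => ?_⟩⟩
        · rw [h4]; exact h1
        · rw [h4]; exact h1
      · rcases hLd g with h1 | h1 | ⟨f, h1, e, h2, h3⟩
        · exact absurd h1 hg
        · exact absurd h1 h0
        · have hf : f ∉ L := fun hf => h0 ⟨f, hf, h1⟩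
          obtain ⟨-, a, b, h4, h5, h6⟩ := (hR g f).1 h1
          refine ⟨a, b, fun _ => ⟨h4, h6.symm, Or.inr ⟨?_, e, h2, ?_⟩, fun h => absurd h h0⟩⟩
          · rw [h5]; exact hf
          · rw [h5]; exact h3
  choose A Cc hAC using hatt
  have hL : Spine T pr L A Cc := by
    refine ⟨hLnd, fun g hg => (hAC g hg).1, fun g hg => (hAC g hg).2.1, ?_⟩
    intro g hg
    rcases (hAC g hg).2.2.1 with h1 | ⟨h1, h2⟩
    · exact Or.inl h1
    · exact Or.inr ⟨h1, (hAC _ h1).2.2.2 h2⟩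
  have hpl : ∀ e ∈ L, (∀ g, g ∉ L → ¬ R g e) → ∀ c, pr c = e → plist L Cc c = [] := by
    intro e heL he c hc
    rw [List.eq_nil_iff_forall_not_mem]
    intro g hg
    obtain ⟨h1, h2⟩ := mem_plist.1 hg
    apply he g h1
    rw [hR]
    refine ⟨?_, A g, c, hL.prA g h1, hc, ?_⟩
    · rintro rfl
      exact h1 heL
    · have := hL.adj g h1
      rw [h2] at this
      exact this.symm
  have hch : L.IsChain (fun e f => ∃ a b, pr a = e ∧ pr b = f ∧ T.Adj a b) := by
    refine hLch.imp ?_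
    intro e f hef
    exact ((hR e f).1 hef).2
  obtain ⟨e, L', hLe⟩ := List.exists_cons_of_ne_nil hLne
  obtain ⟨s, hs⟩ := hsurj e
  obtain ⟨w, g, hw, hwa, -, hgE, hgi, -, hgs⟩ := build h hL hch
    (by
      intro L1 e hLe c hc
      exact hpl e (by rw [hLe]; simp) (fun g hg hge => hlast' e L1 hLe g hg (hsymm _ _ hge)) c hc)
    L' e [] (by simpa using hLe) s hs
    (Or.inl (hpl e (by rw [hLe]; simp) (hfirst e L' hLe)))
  have hhome : ∀ v, home pr L Cc v ∈ e :: L' := by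
    intro v
    rw [← hLe, home]
    split_ifs with h1 h2
    · exact h1
    · exact h2
    · rcases hL.lev _ h1 with h3 | ⟨h3, h4⟩
      · exact absurd h3 h2
      · exact h4
  exact hasAlpha_of_word T hT w hw (fun l hl => alphL_ok l (hwa l hl)) g hgE hgi
    (fun v => hgs v (hhome v)) (hword w hw hwa)

/-- The theorem. -/
theorem alpha_of_lobster
    (hword : ∀ w : List Lt, w ≠ [] → (∀ l ∈ w, l ∈ alphL) → ∃ x y, Rel w x y)
    {V : Type*} [Fintype V] (T : SimpleGraph V)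
    (hT : T.IsTree) (hdeg : ∀ v : V, (T.neighborSet v).ncard ≤ 3) (M : T.Subgraph)
    (hM : M.IsPerfectMatching) (C : SimpleGraph M.edgeSet)
    (hC : ∀ e f : M.edgeSet, C.Adj e f ↔
      e ≠ f ∧ ∃ a ∈ (e : Sym2 V), ∃ b ∈ (f : Sym2 V), T.Adj a b)
    (hlob : ∃ (x y : M.edgeSet) (p : C.Walk x y), p.IsPath ∧
      ∀ e : M.edgeSet, e ∈ p.support ∨ (∃ f ∈ p.support, C.Adj e f) ∨
        (∃ g, C.Adj e g ∧ ∃ f ∈ p.support, C.Adj g f)) : HasAlpha T := by
  classical
  have hex : ∀ v, ∃ u, M.Adj v u ∧ ∀ y, M.Adj v y → y = u := by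
    intro v
    obtain ⟨u, hu, hu'⟩ := hM.1 (hM.2 v)
    exact ⟨u, hu, hu'⟩
  choose m hm hm' using hex
  have hmm : ∀ v, m (m v) = v := fun v => (hm' (m v) v (hm v).symm).symm
  let pr : V → M.edgeSet := fun v => ⟨s(v, m v), hm v⟩
  have hmem : ∀ (v : V) (e : M.edgeSet), v ∈ (e : Sym2 V) ↔ pr v = e := by
    intro v e
    constructor
    · intro hv
      apply Subtype.ext
      obtain ⟨u, hu⟩ := Sym2.mem_iff_exists.1 hv
      have he := e.2
      rw [hu, SimpleGraph.Subgraph.mem_edgeSet] at he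
      rw [hu, hm' v u he]
    · intro hv
      rw [← hv]
      exact Sym2.mem_mk_left _ _
  have hset : Setup T m pr := by
    refine ⟨hmm, fun v => (hm v).adj_sub, ?_, hdeg⟩
    intro u v
    rw [Subtype.ext_iff]
    simp only [pr, Sym2.eq_iff]
    constructor
    · rintro (⟨h1, -⟩ | ⟨h1, -⟩)
      · exact Or.inl h1
      · exact Or.inr h1
    · rintro (rfl | rfl)
      · exact Or.inl ⟨rfl, rfl⟩
      · exact Or.inr ⟨rfl, hmm v⟩
  have : Fintype M.edgeSet := Fintype.ofFinite _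
  obtain ⟨x, y, p, hp, hpd⟩ := hlob
  refine alpha_of_dominating hword T hT m pr hset ?_ C.Adj ?_ ⟨p.support, p.support_ne_nil,
    hp.support_nodup, p.isChain_adj_support, hpd⟩
  · intro e
    obtain ⟨v, hv⟩ : ∃ v, v ∈ (e : Sym2 V) := by
      induction h : (e : Sym2 V) using Sym2.inductionOn with
      | hf a b => exact ⟨a, Sym2.mem_mk_left _ _⟩
    exact ⟨v, (hmem v e).1 hv⟩
  · intro e f
    rw [hC]
    simp only [hmem]
    constructor
    · rintro ⟨h1, a, h2, b, h3, h4⟩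
      exact ⟨h1, a, b, h2, h3, h4⟩
    · rintro ⟨h1, a, b, h2, h3, h4⟩
      exact ⟨h1, a, h2, b, h3, h4⟩

end LobW
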