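import Pool.Agent.Work.MP_f04a5a_co.Lob.Run
import Pool.Agent.Work.MP_f04a5a_co.Lob.Lobster

/-! All words can be labelled; the theorem on lobster contractions. -/

namespace LobW

theorem run_all : ∀ p ∈ hbs, ∃ n, go msk T0 hbs lts n p.1 p.2 = true := by
  intro p hp
  refine ⟨14, ?_⟩
  simp only [hbs, List.mem_cons, List.not_mem_nil, or_false] at hp
  rcases hp with rfl | rfl | rfl | rfl | rfl | rfl | rfl | rfl | rfl | rfl | rfl
  · exact run0
  · exact run1
  · exact run2
  · exact run3
  · exact run4
  · exact run5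
  · exact run6
  · exact run7
  · exact run8
  · exact run9
  · exact run10

theorem hubs_ne : ∀ p ∈ hbs, ∃ y < 6, (p.2.getD 0 0).testBit y = true := by decide +kernel

theorem hub_zero : (([], [3]) : List ℕ × List ℕ) ∈ hbs := by simp [hbs]

theorem mem_lts : ∀ b < 77, b ∈ lts := by decide +kernel

theorem alphL_length : alphL.length = 77 := by decide +kernel

theorem all_words_rel (w : List Lt) (hw : w ≠ []) (h : ∀ l ∈ w, l ∈ alphL) :
    ∃ x y, Rel w x y := by
  have key : ∀ w : List Lt, (∀ l ∈ w, l ∈ alphL) → ∃ r : List ℕ, (∀ b ∈ r, b ∈ lts) ∧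
      r.map al = w := by
    intro w
    induction w with
    | nil => intro _; exact ⟨[], by simp, rfl⟩
    | cons l w ih =>
      intro h
      obtain ⟨r, hr, hr'⟩ := ih (fun l' hl' => h l' (List.mem_cons_of_mem _ hl'))
      obtain ⟨n, hn, hn'⟩ := mem_nth (h l (by simp))
      rw [alphL_length] at hn
      refine ⟨n :: r, ?_, ?_⟩
      · intro b hb
        rcases List.mem_cons.1 hb with rfl | hb
        · exact mem_lts _ hn
        · exact hr b hb
      · rw [List.map_cons, hr']
        have : al n = l := hn'
        rw [this]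
  obtain ⟨r, hr, hr'⟩ := key w h
  have hrn : r ≠ [] := by
    rintro rfl
    exact hw (by rw [← hr']; rfl)
  have := word_real al al_ok okM0 gdT0 hub_zero hubs_ne run_all r hr hrn
  rwa [hr'] at this

end LobW
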