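import Pool.Agent.Work.MP_f04a5a_co.Lob.Table

/-! The run of the search. -/

namespace LobW

def hbs : List (List ℕ × List ℕ) := [([], [3]), ([28, 28], [6, 6, 6]), ([35, 35], [10, 5, 10]),
  ([35, 35], [5, 10, 5]), ([63, 63], [10, 10, 10]), ([63, 63], [5, 5, 5]), ([63, 35], [5, 5, 10]),
  ([63, 35], [10, 10, 5]), ([35, 63], [5, 10, 10]), ([35, 63], [10, 5, 5]), ([28, 28], [12, 12,
  12])]

def lts : List ℕ := [0, 1, 2, 3, 4, 5, 6, 7, 8, 9, 10, 11, 12, 13, 14, 15, 16, 17, 18, 19, 20, 21,
  22, 23, 24, 25, 26, 27, 28, 29, 30, 31, 32, 33, 34, 35, 36, 37, 38, 39, 40, 41, 42, 43, 44, 45,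
  46, 47, 48, 49, 50, 51, 52, 53, 54, 55, 56, 57, 58, 59, 60, 61, 62, 63, 64, 65, 66, 67, 68, 69,
  70, 71, 72, 73, 74, 75, 76]

theorem run0 : go msk T0 hbs lts 14 [] [3] = true := by decide +kernel

theorem run1 : go msk T0 hbs lts 14 [28, 28] [6, 6, 6] = true := by decide +kernel

theorem run2 : go msk T0 hbs lts 14 [35, 35] [10, 5, 10] = true := by decide +kernel

theorem run3 : go msk T0 hbs lts 14 [35, 35] [5, 10, 5] = true := by decide +kernel

theorem run4 : go msk T0 hbs lts 14 [63, 63] [10, 10, 10] = true := by decide +kernel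

theorem run5 : go msk T0 hbs lts 14 [63, 63] [5, 5, 5] = true := by decide +kernel

theorem run6 : go msk T0 hbs lts 14 [63, 35] [5, 5, 10] = true := by decide +kernel

theorem run7 : go msk T0 hbs lts 14 [63, 35] [10, 10, 5] = true := by decide +kernel

theorem run8 : go msk T0 hbs lts 14 [35, 63] [5, 10, 10] = true := by decide +kernel

theorem run9 : go msk T0 hbs lts 14 [35, 63] [10, 5, 5] = true := by decide +kernel

theorem run10 : go msk T0 hbs lts 14 [28, 28] [12, 12, 12] = true := by decide +kernel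

end LobW
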