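import Pool.Agent.Work.MP_f04a5a_co.Lob.Check

/-! The table of labelled words and the search which shows that all words can be labelled. -/

namespace LobW

/-- Entry of a list of letters. -/
noncomputable def nth (L : List Lt) : ℕ → Lt :=
  List.rec (motive := fun _ => ℕ → Lt) (fun _ => (0, []))
    (fun a _ ih n => Nat.rec (motive := fun _ => Lt) a (fun m _ => ih m) n) L

theorem nth_mem (L : List Lt) : ∀ n, n < L.length → nth L n ∈ L := by
  induction L with
  | nil => intro n hn; simp at hn
  | cons a L ih =>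
    intro n hn
    cases n with
    | zero => exact List.mem_cons_self
    | succ n => exact List.mem_cons_of_mem _ (ih n (by simpa using hn))

theorem nth_ok {L : List Lt} (h : ∀ l ∈ L, okL l) : ∀ n, okL (nth L n) := by
  induction L with
  | nil => intro n; exact ⟨Nat.zero_le _, trivial⟩
  | cons a L ih =>
    intro n
    cases n with
    | zero => exact h a (by simp)
    | succ n => exact ih (fun l hl => h l (List.mem_cons_of_mem _ hl)) n

theorem mem_nth {L : List Lt} {l : Lt} (h : l ∈ L) : ∃ n, n < L.length ∧ nth L n = l := by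
  induction L with
  | nil => simp at h
  | cons a L ih =>
    rcases List.mem_cons.1 h with rfl | h
    · exact ⟨0, by simp, rfl⟩
    · obtain ⟨n, hn, h'⟩ := ih h
      exact ⟨n + 1, by simpa using hn, h'⟩

/-- The check of a list of labellings of one word. -/
noncomputable def okC (w : List Lt) (cs : List ℕ) : Bool :=
  List.rec (motive := fun _ => Bool) true (fun c _ ih => labOK w c && ih) cs

theorem okC_spec {w : List Lt} {cs : List ℕ} (h : okC w cs = true) : ∀ c ∈ cs, labOK w c = true := by
  induction cs with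
  | nil => intro c hc; simp at hc
  | cons a cs ih =>
    have h' : (labOK w a && okC w cs) = true := h
    rw [Bool.and_eq_true] at h'
    intro c hc
    rcases List.mem_cons.1 hc with rfl | hc
    · exact h'.1
    · exact ih h'.2 c hc

/-- The bits of a list of labellings. -/
noncomputable def gm (cs : List ℕ) : ℕ :=
  List.rec (motive := fun _ => ℕ) 0
    (fun c _ ih => Nat.lor (bt (Nat.add (Nat.mul 6 (Nat.land c 7))
      (Nat.land (Nat.shiftRight c 3) 7))) ih) cs

theorem gm_spec {cs : List ℕ} {j : ℕ} :
    (gm cs).testBit j = true ↔ ∃ c ∈ cs, 6 * ce c + cy c = j := by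
  induction cs with
  | nil =>
    have : gm [] = 0 := rfl
    simp [this]
  | cons a cs ih =>
    have : gm (a :: cs) = Nat.lor (bt (6 * ce a + cy a)) (gm cs) := rfl
    rw [this, testBit_lor, testBit_bt, ih]
    simp

section

variable (al : ℕ → Lt)

/-- The check of all labellings with the same first part `u` of the word. -/
noncomputable def okG (u : List Lt) (F : List (ℕ × List ℕ)) : Bool :=
  List.rec (motive := fun _ => Bool) true
    (fun p _ ih => (Prod.rec (motive := fun _ => Bool) (fun b cs => okC (u ++ [al b]) cs) p) && ih) F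

theorem okG_cons (u : List Lt) (p : ℕ × List ℕ) (F : List (ℕ × List ℕ)) :
    okG al u (p :: F) = (okC (u ++ [al p.1]) p.2 && okG al u F) := rfl

theorem okG_spec {u : List Lt} {F : List (ℕ × List ℕ)} (h : okG al u F = true) :
    ∀ p ∈ F, ∀ c ∈ p.2, labOK (u ++ [al p.1]) c = true := by
  induction F with
  | nil => intro p hp; simp at hp
  | cons a F ih =>
    rw [okG_cons, Bool.and_eq_true] at h
    intro p hp
    rcases List.mem_cons.1 hp with rfl | hp
    · exact okC_spec h.1
    · exact ih h.2 p hp

/-- The bits of a group. -/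
noncomputable def mkM (F : List (ℕ × List ℕ)) : ℕ :=
  List.rec (motive := fun _ => ℕ) 0
    (fun p _ ih => Nat.lor (Nat.shiftLeft (gm p.2) (Nat.mul 30 p.1)) ih) F

theorem mkM_spec {F : List (ℕ × List ℕ)} {j : ℕ} (h : (mkM F).testBit j = true) :
    ∃ p ∈ F, ∃ c ∈ p.2, j = 30 * p.1 + (6 * ce c + cy c) := by
  induction F with
  | nil =>
    have : mkM [] = 0 := rfl
    rw [this] at h
    simp at h
  | cons a F ih =>
    have h0 : mkM (a :: F) = Nat.lor (gm a.2 <<< (30 * a.1)) (mkM F) := rfl
    rw [h0, testBit_lor] at h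
    rcases h with h | h
    · rw [Nat.testBit_shiftLeft, Bool.and_eq_true] at h
      obtain ⟨h1, h2⟩ := h
      have h1' : 30 * a.1 ≤ j := by simpa using h1
      obtain ⟨c, hc, h3⟩ := gm_spec.1 h2
      exact ⟨a, List.mem_cons_self, c, hc, by omega⟩
    · obtain ⟨p, hp, c, hc, h3⟩ := ih h
      exact ⟨p, List.mem_cons_of_mem _ hp, c, hc, h3⟩

/-- The bits of `M` are facts about the words `u` plus one letter. -/
def okM (M : ℕ) (u : List Lt) : Prop :=
  ∀ b e y, e < 5 → y < 6 → M.testBit (30 * b + (6 * e + y)) = true → RelB (u ++ [al b]) e y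

theorem okM_of_check {M : ℕ} {u : List Lt} {F : List (ℕ × List ℕ)} (hal : ∀ b, okL (al b))
    (oku : okW u) (h1 : okG al u F = true) (h2 : Nat.beq M (mkM F) = true) : okM al M u := by
  have h2' : M = mkM F := Nat.eq_of_beq_eq_true h2
  intro b e y he hy hb
  rw [h2'] at hb
  obtain ⟨p, hp, c, hc, hj⟩ := mkM_spec hb
  have hne : u ++ [al p.1] ≠ [] := by simp
  have ok : okW (u ++ [al p.1]) := by
    rw [okW_append]
    refine ⟨oku, ?_⟩
    intro l hl
    rw [List.mem_singleton] at hl
    rw [hl]
    exact hal _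
  obtain ⟨h3, h4, h5⟩ := labOK_rel hne ok (okG_spec al h1 p hp c hc)
  have hb' : b = p.1 := by omega
  have he' : e = ce c := by omega
  have hy' : y = cy c := by omega
  rw [hb', he', hy']
  exact h5

/-- The table: for the first part of a word (read backwards) the bits `M` and the labellings `F`. -/
inductive Tr
  | nil
  | nd (key M : ℕ) (F : List (ℕ × List ℕ)) (ch nx : Tr)

/-- The facts in the table are right. -/
def good : Tr → List Lt → Prop
  | .nil, _ => True
  | .nd key M _ ch nx, u => okM al M (al key :: u) ∧ good ch (al key :: u) ∧ good nx u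

noncomputable def chkT : Tr → List Lt → Bool
  | .nil, _ => true
  | .nd key M F ch nx, u => (okG al (al key :: u) F && Nat.beq M (mkM F)) &&
      (chkT ch (al key :: u) && chkT nx u)

theorem chkT_good (hal : ∀ b, okL (al b)) : ∀ (t : Tr) (u : List Lt), okW u →
    chkT al t u = true → good al t u := by
  intro t
  induction t with
  | nil => intro u _ _; trivial
  | nd key M F ch nx ih1 ih2 =>
    intro u oku h
    rw [chkT, Bool.and_eq_true, Bool.and_eq_true, Bool.and_eq_true] at h
    obtain ⟨⟨h1, h2⟩, h3, h4⟩ := h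
    have ok' : okW (al key :: u) := okW_cons.2 ⟨hal key, oku⟩
    exact ⟨okM_of_check al hal ok' h1 h2, ih1 _ ok' h3, ih2 _ oku h4⟩

theorem good_nd_aux (hal : ∀ b, okL (al b)) {key M : ℕ} {F : List (ℕ × List ℕ)} {ch nx : Tr}
    (h1 : (okG al (al key :: []) F && Nat.beq M (mkM F)) = true)
    (h2 : chkT al ch (al key :: []) = true) (h3 : good al nx []) :
    good al (.nd key M F ch nx) [] := by
  rw [Bool.and_eq_true] at h1
  have ok' : okW (al key :: []) := okW_cons.2 ⟨hal key, by intro l hl; simp at hl⟩
  exact ⟨okM_of_check al hal ok' h1.1 h1.2, chkT_good al hal _ _ ok' h2, h3⟩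

/-- Search for a key. -/
noncomputable def look (a : ℕ) (t : Tr) : ℕ × Tr :=
  Tr.rec (motive := fun _ => ℕ × Tr) (0, .nil)
    (fun key M _ ch _ _ ih => bif Nat.beq key a then (M, ch) else ih) t

theorem look_nil (a : ℕ) : look a .nil = (0, .nil) := rfl

theorem look_nd (a key M : ℕ) (F : List (ℕ × List ℕ)) (ch nx : Tr) :
    look a (.nd key M F ch nx) = bif Nat.beq key a then (M, ch) else look a nx := rfl

theorem look_good {u : List Lt} (a : ℕ) : ∀ t : Tr, good al t u →
    okM al (look a t).1 (al a :: u) ∧ good al (look a t).2 (al a :: u) := by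
  intro t
  induction t with
  | nil =>
    intro _
    rw [look_nil]
    refine ⟨?_, trivial⟩
    intro b e y _ _ h
    simp at h
  | nd key M F ch nx _ ih =>
    intro h
    obtain ⟨h1, h2, h3⟩ := h
    rw [look_nd]
    by_cases hk : Nat.beq key a = true
    · have : key = a := Nat.eq_of_beq_eq_true hk
      subst this
      rw [hk]
      exact ⟨h1, h2⟩
    · rw [Bool.not_eq_true] at hk
      rw [hk]
      exact ih h3

/-- Expansion of a set of labels. -/
def exB (B : ℕ) : ℕ :=
  Nat.lor (Nat.mul (Nat.land B 1) 63)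
  (Nat.lor (Nat.mul (Nat.land (Nat.shiftRight B 1) 1) 4032)
  (Nat.lor (Nat.mul (Nat.land (Nat.shiftRight B 2) 1) 258048)
  (Nat.lor (Nat.mul (Nat.land (Nat.shiftRight B 3) 1) 16515072)
  (Nat.mul (Nat.land (Nat.shiftRight B 4) 1) 1056964608))))

/-- Union of the rows. -/
def fo (r : ℕ) : ℕ :=
  Nat.land 63 (Nat.lor r (Nat.lor (Nat.shiftRight r 6) (Nat.lor (Nat.shiftRight r 12)
    (Nat.lor (Nat.shiftRight r 18) (Nat.shiftRight r 24)))))

theorem mul_bit_testBit {B i m j : ℕ}
    (h : (Nat.mul (Nat.land (Nat.shiftRight B i) 1) m).testBit j = true) :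
    B.testBit i = true ∧ m.testBit j = true := by
  have h0 : Nat.mul (Nat.land (Nat.shiftRight B i) 1) m = ((B >>> i) &&& 1) * m := rfl
  rw [h0] at h
  have h1 : (B >>> i) &&& 1 = (B.testBit i).toNat := by
    rw [Nat.testBit, Nat.and_comm]
    have hle : 1 &&& B >>> i ≤ 1 := Nat.and_le_left
    rcases Nat.le_one_iff_eq_zero_or_eq_one.1 hle with h | h <;> rw [h] <;> rfl
  rw [h1] at h
  cases hb : B.testBit i
  · rw [hb] at h; simp at h
  · rw [hb] at h; simp only [Bool.toNat_true, one_mul] at h; exact ⟨rfl, h⟩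

theorem row_testBit : ∀ e < 5, ∀ y < 6,
    ((63 : ℕ).testBit (6 * e + y) = decide (e = 0)) ∧
    ((4032 : ℕ).testBit (6 * e + y) = decide (e = 1)) ∧
    ((258048 : ℕ).testBit (6 * e + y) = decide (e = 2)) ∧
    ((16515072 : ℕ).testBit (6 * e + y) = decide (e = 3)) ∧
    ((1056964608 : ℕ).testBit (6 * e + y) = decide (e = 4)) := by decide +kernel

theorem exB_spec {B e y : ℕ} (he : e < 5) (hy : y < 6)
    (h : (exB B).testBit (6 * e + y) = true) : B.testBit e = true := by
  obtain ⟨r0, r1, r2, r3, r4⟩ := row_testBit e he y hy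
  rw [exB, testBit_lor, testBit_lor, testBit_lor, testBit_lor] at h
  have hz : Nat.land B 1 = Nat.land (Nat.shiftRight B 0) 1 := rfl
  rw [hz] at h
  rcases h with h | h | h | h | h
  · obtain ⟨h1, h2⟩ := mul_bit_testBit h
    rw [r0] at h2
    have : e = 0 := by simpa using h2
    rw [this]; exact h1
  · obtain ⟨h1, h2⟩ := mul_bit_testBit h
    rw [r1] at h2
    have : e = 1 := by simpa using h2
    rw [this]; exact h1
  · obtain ⟨h1, h2⟩ := mul_bit_testBit h
    rw [r2] at h2
    have : e = 2 := by simpa using h2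
    rw [this]; exact h1
  · obtain ⟨h1, h2⟩ := mul_bit_testBit h
    rw [r3] at h2
    have : e = 3 := by simpa using h2
    rw [this]; exact h1
  · obtain ⟨h1, h2⟩ := mul_bit_testBit h
    rw [r4] at h2
    have : e = 4 := by simpa using h2
    rw [this]; exact h1

theorem fo_spec {r y : ℕ} (h : (fo r).testBit y = true) :
    y < 6 ∧ ∃ e < 5, r.testBit (6 * e + y) = true := by
  have h0 : fo r = 63 &&& Nat.lor r (Nat.lor (r >>> 6) (Nat.lor (r >>> 12)
    (Nat.lor (r >>> 18) (r >>> 24)))) := rfl
  rw [h0, Nat.testBit_and, Bool.and_eq_true, testBit_lor, testBit_lor, testBit_lor, testBit_lor,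
    Nat.testBit_shiftRight, Nat.testBit_shiftRight, Nat.testBit_shiftRight,
    Nat.testBit_shiftRight] at h
  obtain ⟨h1, h2⟩ := h
  have hy : y < 6 := by
    by_contra hy
    have : (63 : ℕ).testBit y = false := by
      apply Nat.testBit_lt_two_pow
      calc (63 : ℕ) < 2 ^ 6 := by norm_num
        _ ≤ 2 ^ y := Nat.pow_le_pow_right (by norm_num) (by omega)
    rw [this] at h1
    exact absurd h1 (by simp)
  refine ⟨hy, ?_⟩
  rcases h2 with h2 | h2 | h2 | h2 | h2
  · exact ⟨0, by norm_num, by simpa using h2⟩
  · exact ⟨1, by norm_num, by simpa using h2⟩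
  · exact ⟨2, by norm_num, by simpa using h2⟩
  · exact ⟨3, by norm_num, by simpa using h2⟩
  · exact ⟨4, by norm_num, by simpa using h2⟩

/-- Tables and sets along the present word. -/
noncomputable def walk (W : List ℕ) : Tr → List ℕ → List (ℕ × ℕ) :=
  List.rec (motive := fun _ => Tr → List ℕ → List (ℕ × ℕ)) (fun _ _ => [])
    (fun a _ ih t Bs => List.rec (motive := fun _ => List (ℕ × ℕ)) []
      (fun B Bs' _ => ((look a t).1, exB B) :: ih (look a t).2 Bs') Bs) W

theorem walk_nil (t : Tr) (Bs : List ℕ) : walk [] t Bs = [] := rfl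

theorem walk_cons_nil (a : ℕ) (W : List ℕ) (t : Tr) : walk (a :: W) t [] = [] := rfl

theorem walk_cons_cons (a : ℕ) (W : List ℕ) (t : Tr) (B : ℕ) (Bs : List ℕ) :
    walk (a :: W) t (B :: Bs) = ((look a t).1, exB B) :: walk W (look a t).2 Bs := rfl

/-- The new set of labels after the letter `b`. -/
noncomputable def ns (b : ℕ) (L : List (ℕ × ℕ)) : ℕ :=
  List.rec (motive := fun _ => ℕ) 0
    (fun p _ ih => Nat.lor (fo (Nat.land (Nat.shiftRight p.1 (Nat.mul 30 b)) p.2)) ih) L

/-- The word of a reversed list of letters. -/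
def wd (W : List ℕ) : List Lt := (W.map al).reverse

theorem wd_cons (b : ℕ) (W : List ℕ) : wd al (b :: W) = wd al W ++ [al b] := by simp [wd]

theorem wd_append (W W' : List ℕ) : wd al (W ++ W') = wd al W' ++ wd al W := by simp [wd]

theorem wd_ok (hal : ∀ b, okL (al b)) (W : List ℕ) : okW (wd al W) := by
  intro l hl
  simp only [wd, List.mem_reverse, List.mem_map] at hl
  obtain ⟨b, -, rfl⟩ := hl
  exact hal b

/-- A word which has a labelling (or is empty). -/
def Real (p : List Lt) : Prop := p = [] ∨ ∃ x y, Rel p x y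

/-- The word `p` has a labelling with end label `y` (any end label if `y = 5`). -/
def AchB (p : List Lt) (y : ℕ) : Prop := p = [] ∨ ∃ x, RelB p x y

theorem AchB.real {p : List Lt} {y : ℕ} (h : AchB p y) : Real p := by
  rcases h with h | ⟨x, h⟩
  · exact Or.inl h
  · rw [RelB] at h
    split_ifs at h with h5
    · obtain ⟨y', h⟩ := h
      exact Or.inr ⟨x, y', h⟩
    · exact Or.inr ⟨x, y, h⟩

theorem AchB.glue {u v : List Lt} {e y : ℕ} (he : e < 5) (h1 : AchB u e) (hv : v ≠ [])
    (oku : okW u) (okv : okW v) (h2 : RelB v e y) : AchB (u ++ v) y := by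
  by_cases hu : u = []
  · subst hu; right; exact ⟨e, by simpa using h2⟩
  · rcases h1 with h1 | ⟨x, hx⟩
    · exact absurd h1 hu
    · have hne : e ≠ 5 := by omega
      rw [RelB, if_neg hne] at hx
      right
      refine ⟨x, ?_⟩
      rw [RelB] at h2 ⊢
      split_ifs at h2 ⊢ with h5
      · obtain ⟨y', h2⟩ := h2
        exact ⟨y', hx.glue hu hv oku okv h2⟩
      · exact hx.glue hu hv oku okv h2

/-- The invariant of the search. -/
def Inv (q : List Lt) (W Bs : List ℕ) : Prop :=
  ∀ j y, j ≤ W.length → y < 6 → (Bs.getD j 0).testBit y = true → AchB (q ++ wd al (W.drop j)) y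

theorem ns_spec {L : List (ℕ × ℕ)} {b y : ℕ} (h : (ns b L).testBit y = true) :
    y < 6 ∧ ∃ p ∈ L, ∃ e < 5, p.1.testBit (30 * b + (6 * e + y)) = true ∧
      p.2.testBit (6 * e + y) = true := by
  induction L with
  | nil =>
    have : ns b [] = 0 := rfl
    rw [this] at h
    simp at h
  | cons p L ih =>
    have h0 : ns b (p :: L) = Nat.lor (fo ((p.1 >>> (30 * b)) &&& p.2)) (ns b L) := rfl
    rw [h0, testBit_lor] at h
    rcases h with h | h
    · obtain ⟨hy, e, he, h1⟩ := fo_spec h
      rw [Nat.testBit_and, Bool.and_eq_true, Nat.testBit_shiftRight] at h1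
      exact ⟨hy, p, List.mem_cons_self, e, he, h1⟩
    · obtain ⟨hy, p', hp', h1⟩ := ih h
      exact ⟨hy, p', List.mem_cons_of_mem _ hp', h1⟩

/-- What the lists made by `walk` know. -/
theorem walk_spec (hal : ∀ b, okL (al b)) {q : List Lt} (okq : okW q) {b y : ℕ} (hy : y < 6) :
    ∀ (W : List ℕ) (t : Tr) (Bs : List ℕ) (P : List ℕ), good al t (wd al P) →
      (∀ j z, j < W.length → z < 6 → (Bs.getD j 0).testBit z = true →
        AchB (q ++ wd al (W.drop (j + 1))) z) →
      ∀ p ∈ walk W t Bs, ∀ e < 5, p.1.testBit (30 * b + (6 * e + y)) = true →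
        p.2.testBit (6 * e + y) = true → AchB (q ++ wd al W ++ (wd al P ++ [al b])) y := by
  intro W
  induction W with
  | nil => intro t Bs P _ _ p hp; rw [walk_nil] at hp; simp at hp
  | cons a W ih =>
    intro t Bs P ht hB p hp e he h1 h2
    cases Bs with
    | nil => rw [walk_cons_nil] at hp; simp at hp
    | cons B Bs =>
      rw [walk_cons_cons, List.mem_cons] at hp
      obtain ⟨hl1, hl2⟩ := look_good al a t ht
      have hwd : wd al (P ++ [a]) = al a :: wd al P := by simp [wd]
      rcases hp with rfl | hp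
      · have hr := hl1 b e y he hy h1
        have hBe : AchB (q ++ wd al W) e := by
          have := hB 0 e (by simp) (by omega) (by simpa using exB_spec he hy h2)
          simpa using this
        have := hBe.glue he (v := al a :: wd al P ++ [al b]) (by simp)
          (okW_append.2 ⟨okq, wd_ok al hal W⟩)
          (by
            rw [← hwd, ← wd_cons]
            exact wd_ok al hal _) hr
        rw [wd_cons]
        simpa [List.append_assoc] using this
      · have := ih (look a t).2 Bs (P ++ [a]) (by rw [hwd]; exact hl2)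
          (by
            intro j z hj hz hb
            have := hB (j + 1) z (by simpa using hj) hz (by simpa using hb)
            simpa using this) p hp e he h1 h2
        rw [hwd] at this
        rw [wd_cons]
        simpa [List.append_assoc] using this

/-- The list of tables and sets at a node. -/
noncomputable def nodeL (M0 : ℕ) (T0 : Tr) (W Bs : List ℕ) : List (ℕ × ℕ) :=
  List.rec (motive := fun _ => List (ℕ × ℕ)) [] (fun B Bs' _ => (M0, exB B) :: walk W T0 Bs') Bs

theorem nodeL_cons (M0 : ℕ) (T0 : Tr) (W : List ℕ) (B : ℕ) (Bs : List ℕ) :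
    nodeL M0 T0 W (B :: Bs) = (M0, exB B) :: walk W T0 Bs := rfl

theorem inv_step (hal : ∀ b, okL (al b)) {q : List Lt} (okq : okW q) {M0 : ℕ} {T0 : Tr}
    (hM : okM al M0 []) (hT : good al T0 []) {W Bs : List ℕ} (h : Inv al q W Bs) (b : ℕ) :
    Inv al q (b :: W) (ns b (nodeL M0 T0 W Bs) :: Bs) := by
  intro j y hj hy hb
  cases j with
  | succ j =>
    have := h j y (by simpa using hj) hy (by simpa using hb)
    simpa using this
  | zero =>
    have hb' : (ns b (nodeL M0 T0 W Bs)).testBit y = true := by simpa using hb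
    obtain ⟨-, p, hp, e, he, h1, h2⟩ := ns_spec hb'
    cases Bs with
    | nil =>
      have : nodeL M0 T0 W [] = [] := rfl
      rw [this] at hp
      simp at hp
    | cons B Bs =>
      rw [nodeL_cons, List.mem_cons] at hp
      show AchB (q ++ wd al (b :: W)) y
      rw [wd_cons, ← List.append_assoc]
      rcases hp with rfl | hp
      · have hr := hM b e y he hy h1
        have hBe : AchB (q ++ wd al W) e := by
          have := h 0 e (by simp) (by omega) (by simpa using exB_spec he hy h2)
          simpa using this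
        have := hBe.glue he (v := [] ++ [al b]) (by simp)
          (okW_append.2 ⟨okq, wd_ok al hal W⟩)
          (by
            intro l hl
            rw [List.nil_append, List.mem_singleton] at hl
            rw [hl]
            exact hal b) hr
        simpa using this
      · have := walk_spec al hal okq hy W T0 Bs [] (by simpa [wd] using hT)
          (by
            intro j z hj hz hb
            exact h (j + 1) z (by omega) hz (by simpa using hb)) p hp e he h1 h2
        simpa [wd] using this

/-- Comparison of the beginning of the present word with a hub. -/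
noncomputable def eqH (H : List ℕ) : List ℕ → Bool :=
  List.rec (motive := fun _ => List ℕ → Bool) (fun _ => true)
    (fun a _ ih W => List.rec (motive := fun _ => Bool) false
      (fun c W' _ => Nat.beq a c && ih W') W) H

theorem eqH_nil (W : List ℕ) : eqH [] W = true := rfl

theorem eqH_cons_nil (a : ℕ) (H : List ℕ) : eqH (a :: H) [] = false := rfl

theorem eqH_cons_cons (a c : ℕ) (H W : List ℕ) :
    eqH (a :: H) (c :: W) = (Nat.beq a c && eqH H W) := rfl

theorem eqH_spec : ∀ {H W : List ℕ}, eqH H W = true → ∃ W', W = H ++ W' := by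
  intro H
  induction H with
  | nil => intro W _; exact ⟨W, rfl⟩
  | cons a H ih =>
    intro W h
    cases W with
    | nil => rw [eqH_cons_nil] at h; exact absurd h (by simp)
    | cons c W =>
      rw [eqH_cons_cons, Bool.and_eq_true] at h
      obtain ⟨h1, h2⟩ := h
      have : a = c := Nat.eq_of_beq_eq_true h1
      subst this
      obtain ⟨W', hW⟩ := ih h2
      exact ⟨W', by rw [hW]; rfl⟩

/-- Comparison of the sets of labels: each mask is contained in the set. -/
noncomputable def leM (A : List ℕ) : List ℕ → Bool :=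
  List.rec (motive := fun _ => List ℕ → Bool) (fun _ => true)
    (fun a _ ih Bs => List.rec (motive := fun _ => Bool) false
      (fun B Bs' _ => Nat.beq (Nat.land a B) a && ih Bs') Bs) A

theorem leM_cons_nil (a : ℕ) (A : List ℕ) : leM (a :: A) [] = false := rfl

theorem leM_cons_cons (a B : ℕ) (A Bs : List ℕ) :
    leM (a :: A) (B :: Bs) = (Nat.beq (Nat.land a B) a && leM A Bs) := rfl

theorem leM_spec : ∀ {A Bs : List ℕ}, leM A Bs = true → ∀ j y, (A.getD j 0).testBit y = true →
    (Bs.getD j 0).testBit y = true := by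
  intro A
  induction A with
  | nil => intro Bs _ j y h; simp at h
  | cons a A ih =>
    intro Bs h j y hy
    cases Bs with
    | nil => rw [leM_cons_nil] at h; exact absurd h (by simp)
    | cons B Bs =>
      rw [leM_cons_cons, Bool.and_eq_true] at h
      obtain ⟨h1, h2⟩ := h
      cases j with
      | zero =>
        have h3 : a &&& B = a := Nat.eq_of_beq_eq_true h1
        have h4 : a.testBit y = true := by simpa using hy
        rw [← h3, Nat.testBit_and, Bool.and_eq_true] at h4
        simpa using h4.2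
      | succ j =>
        have := ih h2 j y (by simpa using hy)
        simpa using this

/-- Some hub fits. -/
noncomputable def anyH (Hs : List (List ℕ × List ℕ)) (W Bs : List ℕ) : Bool :=
  List.rec (motive := fun _ => Bool) false
    (fun p _ ih => bif eqH p.1 W then (bif leM p.2 Bs then true else ih) else ih) Hs

theorem anyH_cons (p : List ℕ × List ℕ) (Hs : List (List ℕ × List ℕ)) (W Bs : List ℕ) :
    anyH (p :: Hs) W Bs =
      bif eqH p.1 W then (bif leM p.2 Bs then true else anyH Hs W Bs) else anyH Hs W Bs := rfl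

theorem anyH_spec {Hs : List (List ℕ × List ℕ)} {W Bs : List ℕ} (h : anyH Hs W Bs = true) :
    ∃ p ∈ Hs, eqH p.1 W = true ∧ leM p.2 Bs = true := by
  induction Hs with
  | nil =>
    have : anyH [] W Bs = false := rfl
    rw [this] at h
    exact absurd h (by simp)
  | cons p Hs ih =>
    rw [anyH_cons] at h
    cases h1 : eqH p.1 W
    · rw [h1] at h
      obtain ⟨p', hp', h'⟩ := ih h
      exact ⟨p', List.mem_cons_of_mem _ hp', h'⟩
    · cases h2 : leM p.2 Bs
      · rw [h1, h2] at h
        obtain ⟨p', hp', h'⟩ := ih h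
        exact ⟨p', List.mem_cons_of_mem _ hp', h'⟩
      · exact ⟨p, List.mem_cons_self, h1, h2⟩

/-- The new state fits the invariant of a hub. -/
theorem inv_hub {q : List Lt} {W Bs : List ℕ} (h : Inv al q W Bs) {p : List ℕ × List ℕ}
    (h1 : eqH p.1 W = true) (h2 : leM p.2 Bs = true) :
    ∃ W', W = p.1 ++ W' ∧ Inv al (q ++ wd al W') p.1 p.2 := by
  obtain ⟨W', hW⟩ := eqH_spec h1
  refine ⟨W', hW, ?_⟩
  intro j y hj hy hb
  have := h j y (by rw [hW, List.length_append]; omega) hy (leM_spec h2 j y hb)
  rw [hW, List.drop_append_of_le_length hj, wd_append, ← List.append_assoc] at this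
  exact this

/-- The search over the letters in the list. -/
noncomputable def lpL (f : ℕ → Bool) (l : List ℕ) : Bool :=
  List.rec (motive := fun _ => Bool) true (fun b _ ih => f b && ih) l

theorem lpL_spec {f : ℕ → Bool} {l : List ℕ} (h : lpL f l = true) : ∀ b ∈ l, f b = true := by
  induction l with
  | nil => intro b hb; simp at hb
  | cons a l ih =>
    have h' : (f a && lpL f l) = true := h
    rw [Bool.and_eq_true] at h'
    intro b hb
    rcases List.mem_cons.1 hb with rfl | hb
    · exact h'.1
    · exact ih h'.2 b hb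

/-- The step of the search. -/
noncomputable def stp (Hs : List (List ℕ × List ℕ)) (ih : List ℕ → List ℕ → Bool) (W Bs : List ℕ)
    (b nb : ℕ) : Bool :=
  bif Nat.beq (Nat.land nb 3) 3 then true else
    (bif anyH Hs (b :: W) (nb :: Bs) then true else
      (Nat.ble 1 nb && ih (b :: W) (nb :: Bs)))

/-- The search. -/
noncomputable def go (M0 : ℕ) (T0 : Tr) (Hs : List (List ℕ × List ℕ)) (l : List ℕ) :
    ℕ → List ℕ → List ℕ → Bool :=
  fun n => Nat.rec (motive := fun _ => List ℕ → List ℕ → Bool) (fun _ _ => false)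
    (fun _ ih W Bs => lpL (fun b => stp Hs ih W Bs b (ns b (nodeL M0 T0 W Bs))) l) n

theorem go_succ (M0 : ℕ) (T0 : Tr) (Hs : List (List ℕ × List ℕ)) (l : List ℕ) (n : ℕ)
    (W Bs : List ℕ) : go M0 T0 Hs l (n + 1) W Bs =
      lpL (fun b => stp Hs (go M0 T0 Hs l n) W Bs b (ns b (nodeL M0 T0 W Bs))) l := rfl

theorem go_sound (hal : ∀ b, okL (al b)) {M0 : ℕ} {T0 : Tr} {Hs : List (List ℕ × List ℕ)}
    {l : List ℕ} (hM : okM al M0 []) (hT : good al T0 []) (m : ℕ)
    (h0 : ([], [3]) ∈ Hs)
    (IH : ∀ p ∈ Hs, ∀ q, okW q → Inv al q p.1 p.2 → ∀ r : List ℕ, (∀ b ∈ r, b ∈ l) →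
      r.length ≤ m → Real (q ++ wd al p.1 ++ r.map al)) :
    ∀ (n : ℕ) (W Bs : List ℕ) (q : List Lt), okW q → Inv al q W Bs → go M0 T0 Hs l n W Bs = true →
      Real (q ++ wd al W) → ∀ r : List ℕ, (∀ b ∈ r, b ∈ l) → r.length ≤ m + 1 →
      Real (q ++ wd al W ++ r.map al) := by
  intro n
  induction n with
  | zero =>
    intro W Bs q _ _ h
    have : go M0 T0 Hs l 0 W Bs = false := rfl
    rw [this] at h
    exact absurd h (by simp)
  | succ n ih =>
    intro W Bs q okq hinv h hreal r hr hlen
    rw [go_succ] at h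
    cases r with
    | nil => simpa using hreal
    | cons b r =>
      have hb := lpL_spec h b (hr b (by simp))
      simp only [stp] at hb
      have hinv' := inv_step al hal okq hM hT hinv b
      have hr' : ∀ b ∈ r, b ∈ l := fun c hc => hr c (List.mem_cons_of_mem _ hc)
      have hlen' : r.length ≤ m := by simpa using hlen
      have hgoal : q ++ wd al W ++ (b :: r).map al = q ++ wd al (b :: W) ++ r.map al := by
        rw [wd_cons]; simp
      rw [hgoal]
      have hclose : ∀ p ∈ Hs, eqH p.1 (b :: W) = true →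
          leM p.2 (ns b (nodeL M0 T0 W Bs) :: Bs) = true →
          Real (q ++ wd al (b :: W) ++ r.map al) := by
        intro p hp h1 h2
        obtain ⟨W', hW', hinvp⟩ := inv_hub al hinv' h1 h2
        have := IH p hp (q ++ wd al W') (okW_append.2 ⟨okq, wd_ok al hal W'⟩) hinvp r hr' hlen'
        rw [hW', wd_append, ← List.append_assoc]
        exact this
      cases h3 : Nat.beq (Nat.land (ns b (nodeL M0 T0 W Bs)) 3) 3
      · rw [h3] at hb
        cases h4 : anyH Hs (b :: W) (ns b (nodeL M0 T0 W Bs) :: Bs)
        · rw [h4] at hb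
          simp only [cond_false, Bool.and_eq_true] at hb
          obtain ⟨h5, h6⟩ := hb
          apply ih (b :: W) _ q okq hinv' h6 _ r hr' (by omega)
          -- the present word can be labelled
          have hne : ns b (nodeL M0 T0 W Bs) ≠ 0 := by
            have := Nat.le_of_ble_eq_true h5
            omega
          obtain ⟨y, hy⟩ := Nat.exists_testBit_of_ne_zero hne
          have hy6 := (ns_spec hy).1
          have := hinv' 0 y (by simp) hy6 (by simpa using hy)
          exact AchB.real (by simpa using this)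
        · obtain ⟨p, hp, h5, h6⟩ := anyH_spec h4
          exact hclose p hp h5 h6
      · refine hclose ([], [3]) h0 (eqH_nil _) ?_
        rw [leM_cons_cons]
        have : leM [] Bs = true := rfl
        rw [this, Bool.and_true]
        have h5 : ns b (nodeL M0 T0 W Bs) &&& 3 = 3 := Nat.eq_of_beq_eq_true h3
        have h6 : Nat.land 3 (ns b (nodeL M0 T0 W Bs)) = 3 := by
          have : Nat.land 3 (ns b (nodeL M0 T0 W Bs)) = 3 &&& ns b (nodeL M0 T0 W Bs) := rfl
          rw [this, Nat.and_comm]
          exact h5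
        rw [h6]
        rfl

/-- If the search succeeds from all hubs then all words can be labelled. -/
theorem all_words (hal : ∀ b, okL (al b)) {M0 : ℕ} {T0 : Tr} {Hs : List (List ℕ × List ℕ)}
    {l : List ℕ} (hM : okM al M0 []) (hT : good al T0 []) (h0 : ([], [3]) ∈ Hs)
    (hne : ∀ p ∈ Hs, ∃ y < 6, (p.2.getD 0 0).testBit y = true)
    (hgo : ∀ p ∈ Hs, ∃ n, go M0 T0 Hs l n p.1 p.2 = true) :
    ∀ m, ∀ p ∈ Hs, ∀ q, okW q → Inv al q p.1 p.2 → ∀ r : List ℕ, (∀ b ∈ r, b ∈ l) →
      r.length ≤ m → Real (q ++ wd al p.1 ++ r.map al) := by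
  intro m
  have hcur : ∀ p ∈ Hs, ∀ q, Inv al q p.1 p.2 → Real (q ++ wd al p.1) := by
    intro p hp q hinv
    obtain ⟨y, hy, hb⟩ := hne p hp
    have := hinv 0 y (by simp) hy hb
    exact AchB.real (by simpa using this)
  induction m with
  | zero =>
    intro p hp q _ hinv r _ hlen
    have : r = [] := List.length_eq_zero_iff.1 (by omega)
    subst this
    simpa using hcur p hp q hinv
  | succ m ih =>
    intro p hp q okq hinv r hr hlen
    obtain ⟨n, hn⟩ := hgo p hp
    exact go_sound al hal hM hT m h0 ih n p.1 p.2 q okq hinv hn (hcur p hp q hinv) r hr hlen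

theorem word_real (hal : ∀ b, okL (al b)) {M0 : ℕ} {T0 : Tr} {Hs : List (List ℕ × List ℕ)}
    {l : List ℕ} (hM : okM al M0 []) (hT : good al T0 []) (h0 : ([], [3]) ∈ Hs)
    (hne : ∀ p ∈ Hs, ∃ y < 6, (p.2.getD 0 0).testBit y = true)
    (hgo : ∀ p ∈ Hs, ∃ n, go M0 T0 Hs l n p.1 p.2 = true) (r : List ℕ) (hr : ∀ b ∈ r, b ∈ l)
    (hrn : r ≠ []) : ∃ x y, Rel (r.map al) x y := by
  have hinv : Inv al [] ([] : List ℕ) [3] := by
    intro j y hj _ _
    left
    simp [wd]
  have := all_words al hal hM hT h0 hne hgo r.length _ h0 [] (by intro l hl; simp at hl) hinv r hr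
    le_rfl
  have h1 : Real (r.map al) := by simpa [wd] using this
  rcases h1 with h1 | h1
  · exact absurd (by simpa using h1) hrn
  · exact h1

end

end LobW
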