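import Pool.Agent.Work.MP_f04a5a_co.Lob.Defs

/-! A tree with maximum degree at most three and a perfect matching whose contraction is a
lobster is spelled by a word. -/

namespace LobW

/-- The matching: `m v` is the partner of `v` and `pr v` is the matched pair of `v`. -/
structure Setup {V P : Type*} (T : SimpleGraph V) (m : V → V) (pr : V → P) : Prop where
  mm : ∀ v, m (m v) = v
  madj : ∀ v, T.Adj v (m v)
  pr_eq : ∀ u v, pr u = pr v ↔ u = v ∨ u = m v
  deg : ∀ v, (T.neighborSet v).ncard ≤ 3

/-- A spine with an attachment of the other pairs, in at most two steps. -/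
structure Spine {V P : Type*} (T : SimpleGraph V) (pr : V → P) (L : List P) (A Cc : P → V) :
    Prop where
  nd : L.Nodup
  prA : ∀ g, g ∉ L → pr (A g) = g
  adj : ∀ g, g ∉ L → T.Adj (Cc g) (A g)
  lev : ∀ g, g ∉ L → pr (Cc g) ∈ L ∨ (pr (Cc g) ∉ L ∧ pr (Cc (pr (Cc g))) ∈ L)

open Classical in
/-- The pair on the spine to which a vertex belongs or leads. -/
noncomputable def home {V P : Type*} (pr : V → P) (L : List P) (Cc : P → V) (v : V) : P :=
  if pr v ∈ L then pr v else if pr (Cc (pr v)) ∈ L then pr (Cc (pr v)) else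
    pr (Cc (pr (Cc (pr v))))

open Classical in
/-- The pairs attached at a vertex. -/
noncomputable def plist {V P : Type*} [Fintype P] (L : List P) (Cc : P → V) (c : V) : List P :=
  (Finset.univ.filter (fun g => g ∉ L ∧ Cc g = c)).toList

section

variable {V P : Type*} {T : SimpleGraph V} {m : V → V} {pr : V → P}
  {L : List P} {A Cc : P → V}

theorem mem_plist [Fintype P] {c : V} {g : P} : g ∈ plist L Cc c ↔ g ∉ L ∧ Cc g = c := by
  simp [plist]

theorem nodup_plist [Fintype P] (c : V) : (plist L Cc c).Nodup := Finset.nodup_toList _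

theorem Setup.pr_m (h : Setup T m pr) (v : V) : pr (m v) = pr v := by
  rw [h.pr_eq]; right; rfl

theorem Setup.ne_m (h : Setup T m pr) (v : V) : v ≠ m v := (h.madj v).ne

theorem Setup.eq_or (h : Setup T m pr) {u v : V} (huv : pr u = pr v) : u = v ∨ u = m v :=
  (h.pr_eq u v).1 huv

/-- The vertices of a list of attached pairs. -/
def fv (A : P → V) (m : V → V) (H : List P) : List V := H.flatMap (fun g => [A g, m (A g)])

theorem mem_fv {H : List P} {v : V} : v ∈ fv A m H ↔ ∃ g ∈ H, v = A g ∨ v = m (A g) := by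
  simp [fv, List.mem_flatMap]

theorem fv_length (H : List P) : (fv A m H).length = 2 * H.length := by
  induction H with
  | nil => rfl
  | cons g H ih =>
    have : fv A m (g :: H) = A g :: m (A g) :: fv A m H := rfl
    rw [this]
    simp only [List.length_cons, ih]
    ring

theorem pr_of_mem_fv (h : Setup T m pr) (hL : Spine T pr L A Cc) {H : List P}
    (hH : ∀ g ∈ H, g ∉ L) {v : V} (hv : v ∈ fv A m H) : pr v ∈ H := by
  obtain ⟨g, hg, hv⟩ := mem_fv.1 hv
  rcases hv with rfl | rfl
  · rw [hL.prA g (hH g hg)]; exact hg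
  · rw [h.pr_m, hL.prA g (hH g hg)]; exact hg

theorem nodup_fv (h : Setup T m pr) (hL : Spine T pr L A Cc) {H : List P} (hnd : H.Nodup)
    (hH : ∀ g ∈ H, g ∉ L) : (fv A m H).Nodup := by
  induction H with
  | nil => exact List.nodup_nil
  | cons g H ih =>
    have h0 : fv A m (g :: H) = A g :: m (A g) :: fv A m H := rfl
    obtain ⟨h1, h2⟩ := List.nodup_cons.1 hnd
    have hH' : ∀ g ∈ H, g ∉ L := fun g' hg' => hH g' (List.mem_cons_of_mem _ hg')
    have hg := hL.prA g (hH g (by simp))
    rw [h0, List.nodup_cons, List.nodup_cons]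
    refine ⟨?_, ?_, ih h2 hH'⟩
    · intro hm
      rcases List.mem_cons.1 hm with hm | hm
      · exact h.ne_m _ hm
      · have := pr_of_mem_fv h hL hH' hm
        rw [hg] at this
        exact h1 this
    · intro hm
      have := pr_of_mem_fv h hL hH' hm
      rw [h.pr_m, hg] at this
      exact h1 this

end

section

variable {V P : Type*} [Fintype P] {T : SimpleGraph V} {m : V → V} {pr : V → P}
  {L : List P} {A Cc : P → V}

/-- The vertices of a pair attached to the spine and of the pairs attached to it. -/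
noncomputable def pv (L : List P) (A Cc : P → V) (m : V → V) (g : P) : List V :=
  A g :: m (A g) :: (fv A m (plist L Cc (A g)) ++ fv A m (plist L Cc (m (A g))))

/-- The type of a pair attached to the spine. -/
noncomputable def tau (L : List P) (A Cc : P → V) (m : V → V) (g : P) : ℕ × ℕ :=
  ((plist L Cc (A g)).length, (plist L Cc (m (A g))).length)

theorem mem_pv {g : P} {v : V} : v ∈ pv L A Cc m g ↔ v = A g ∨ v = m (A g) ∨
    ∃ h, h ∉ L ∧ (Cc h = A g ∨ Cc h = m (A g)) ∧ (v = A h ∨ v = m (A h)) := by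
  simp only [pv, List.mem_cons, List.mem_append, mem_fv, mem_plist]
  constructor
  · rintro (h | h | ⟨g', ⟨h1, h2⟩, h3⟩ | ⟨g', ⟨h1, h2⟩, h3⟩)
    · exact Or.inl h
    · exact Or.inr (Or.inl h)
    · exact Or.inr (Or.inr ⟨g', h1, Or.inl h2, h3⟩)
    · exact Or.inr (Or.inr ⟨g', h1, Or.inr h2, h3⟩)
  · rintro (h | h | ⟨g', h1, h2 | h2, h3⟩)
    · exact Or.inl h
    · exact Or.inr (Or.inl h)
    · exact Or.inr (Or.inr (Or.inl ⟨g', ⟨h1, h2⟩, h3⟩))
    · exact Or.inr (Or.inr (Or.inr ⟨g', ⟨h1, h2⟩, h3⟩))

/-- The pair attached to the spine to which a vertex off the spine belongs or leads. -/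
theorem owner (h : Setup T m pr) (hL : Spine T pr L A Cc) {g : P} (hg : g ∉ L)
    (hg' : pr (Cc g) ∈ L) {v : V} (hv : v ∈ pv L A Cc m g) :
    pr v ∉ L ∧ ((pr v = g) ∨ (pr v ≠ g ∧ pr (Cc (pr v)) = g)) := by
  rw [mem_pv] at hv
  rcases hv with rfl | rfl | ⟨k, hk, hc, hv⟩
  · rw [hL.prA g hg]; exact ⟨hg, Or.inl rfl⟩
  · rw [h.pr_m, hL.prA g hg]; exact ⟨hg, Or.inl rfl⟩
  · have hprv : pr v = k := by
      rcases hv with rfl | rfl
      · exact hL.prA k hk
      · rw [h.pr_m]; exact hL.prA k hk
    have hpk : pr (Cc k) = g := by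
      rcases hc with hc | hc
      · rw [hc]; exact hL.prA g hg
      · rw [hc, h.pr_m]; exact hL.prA g hg
    rw [hprv]
    refine ⟨hk, Or.inr ⟨?_, hpk⟩⟩
    rintro rfl
    rw [hpk] at hg'
    exact hk hg'

theorem nodup_pv (h : Setup T m pr) (hL : Spine T pr L A Cc) {g : P} (hg : g ∉ L)
    (hg' : pr (Cc g) ∈ L) : (pv L A Cc m g).Nodup := by
  have hH : ∀ k ∈ plist L Cc (A g) ++ plist L Cc (m (A g)), k ∉ L ∧ pr (Cc k) = g := by
    intro k hk
    rw [List.mem_append, mem_plist, mem_plist] at hk
    rcases hk with ⟨h1, h2⟩ | ⟨h1, h2⟩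
    · exact ⟨h1, by rw [h2]; exact hL.prA g hg⟩
    · exact ⟨h1, by rw [h2, h.pr_m]; exact hL.prA g hg⟩
  have hnd : (plist L Cc (A g) ++ plist L Cc (m (A g))).Nodup := by
    rw [List.nodup_append]
    refine ⟨nodup_plist _, nodup_plist _, ?_⟩
    rintro k hk k' hk' rfl
    have h1 := (mem_plist.1 hk).2
    have h2 := (mem_plist.1 hk').2
    exact h.ne_m (A g) (h1.symm.trans h2)
  have happ : fv A m (plist L Cc (A g)) ++ fv A m (plist L Cc (m (A g))) =
      fv A m (plist L Cc (A g) ++ plist L Cc (m (A g))) := by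
    simp [fv, List.flatMap_append]
  have hpr : ∀ v ∈ fv A m (plist L Cc (A g) ++ plist L Cc (m (A g))), pr v ≠ g := by
    intro v hv hvg
    have := pr_of_mem_fv h hL (fun k hk => (hH k hk).1) hv
    rw [hvg] at this
    have := (hH g this).2
    rw [this] at hg'
    exact hg hg'
  rw [pv, happ, List.nodup_cons, List.nodup_cons]
  refine ⟨?_, ?_, nodup_fv h hL hnd (fun k hk => (hH k hk).1)⟩
  · intro hm
    rcases List.mem_cons.1 hm with hm | hm
    · exact h.ne_m _ hm
    · exact hpr _ hm (hL.prA g hg)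
  · intro hm
    exact hpr _ hm (by rw [h.pr_m]; exact hL.prA g hg)

/-- The vertices of a block; `R` is a list of the pairs attached at `s` and `m s`. -/
noncomputable def bl (L : List P) (A Cc : P → V) (m : V → V) (s : V) (R : List P) : List V :=
  s :: m s :: R.flatMap (pv L A Cc m)

theorem mem_bl (h : Setup T m pr) (hL : Spine T pr L A Cc) {s : V} (hs : pr s ∈ L) {R : List P}
    (hR : ∀ g, g ∈ R ↔ g ∉ L ∧ (Cc g = s ∨ Cc g = m s)) (v : V) :
    v ∈ bl L A Cc m s R ↔ home pr L Cc v = pr s := by
  have hRl : ∀ g ∈ R, g ∉ L ∧ pr (Cc g) = pr s := by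
    intro g hg
    obtain ⟨h1, h2⟩ := (hR g).1 hg
    refine ⟨h1, ?_⟩
    rcases h2 with h2 | h2
    · rw [h2]
    · rw [h2, h.pr_m]
  simp only [bl, List.mem_cons, List.mem_flatMap]
  constructor
  · rintro (rfl | rfl | ⟨g, hg, hv⟩)
    · rw [home, if_pos hs]
    · rw [home, h.pr_m, if_pos hs]
    · obtain ⟨h1, h2⟩ := hRl g hg
      have hgL : pr (Cc g) ∈ L := by rw [h2]; exact hs
      obtain ⟨h3, h4⟩ := owner h hL h1 hgL hv
      rw [home, if_neg h3]
      rcases h4 with h4 | ⟨h4, h5⟩
      · rw [h4, if_pos hgL, h2]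
      · rw [h5, if_neg h1, h2]
  · intro hv
    rw [home] at hv
    by_cases hvL : pr v ∈ L
    · rw [if_pos hvL] at hv
      rcases h.eq_or hv with h1 | h1
      · exact Or.inl h1
      · exact Or.inr (Or.inl h1)
    · rw [if_neg hvL] at hv
      right; right
      by_cases hp : pr (Cc (pr v)) ∈ L
      · rw [if_pos hp] at hv
        refine ⟨pr v, (hR _).2 ⟨hvL, h.eq_or hv⟩, ?_⟩
        rw [mem_pv]
        have := hL.prA _ hvL
        rcases h.eq_or this with h1 | h1
        · exact Or.inl h1.symm
        · right; left; rw [h1, h.mm]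
      · rw [if_neg hp] at hv
        refine ⟨pr (Cc (pr v)), (hR _).2 ⟨hp, h.eq_or hv⟩, ?_⟩
        rw [mem_pv]
        right; right
        refine ⟨pr v, hvL, ?_, ?_⟩
        · have := hL.prA _ hp
          rcases h.eq_or this with h1 | h1
          · exact Or.inl h1.symm
          · right; rw [h1, h.mm]
        · have := hL.prA _ hvL
          rcases h.eq_or this with h1 | h1
          · exact Or.inl h1.symm
          · right; rw [h1, h.mm]

theorem nodup_bl (h : Setup T m pr) (hL : Spine T pr L A Cc) {s : V} (hs : pr s ∈ L) {R : List P}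
    (hR : ∀ g, g ∈ R ↔ g ∉ L ∧ (Cc g = s ∨ Cc g = m s)) (hnd : R.Nodup) :
    (bl L A Cc m s R).Nodup := by
  have hRl : ∀ g ∈ R, g ∉ L ∧ pr (Cc g) ∈ L := by
    intro g hg
    obtain ⟨h1, h2⟩ := (hR g).1 hg
    refine ⟨h1, ?_⟩
    rcases h2 with h2 | h2
    · rw [h2]; exact hs
    · rw [h2, h.pr_m]; exact hs
  have hpr : ∀ v ∈ R.flatMap (pv L A Cc m), pr v ∉ L := by
    intro v hv
    obtain ⟨g, hg, hv⟩ := List.mem_flatMap.1 hv
    exact (owner h hL (hRl g hg).1 (hRl g hg).2 hv).1
  rw [bl, List.nodup_cons, List.nodup_cons, List.nodup_flatMap]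
  refine ⟨?_, ?_, ?_, ?_⟩
  · intro hm
    rcases List.mem_cons.1 hm with hm | hm
    · exact h.ne_m s hm
    · exact hpr s hm hs
  · intro hm
    exact hpr _ hm (by rw [h.pr_m]; exact hs)
  · intro g hg
    exact nodup_pv h hL (hRl g hg).1 (hRl g hg).2
  · refine hnd.imp_of_mem ?_
    intro g g' hg hg' hne
    rw [Function.onFun, List.disjoint_left]
    intro v hv hv'
    obtain ⟨-, h2⟩ := owner h hL (hRl g hg).1 (hRl g hg).2 hv
    obtain ⟨-, h2'⟩ := owner h hL (hRl g' hg').1 (hRl g' hg').2 hv'
    apply hne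
    rcases h2 with h2 | ⟨h2, h3⟩
    · rcases h2' with h2' | ⟨h2', h3'⟩
      · rw [← h2, h2']
      · exfalso
        rw [h2] at h3'
        have := (hRl g hg).2
        rw [h3'] at this
        exact (hRl g' hg').1 this
    · rcases h2' with h2' | ⟨h2', h3'⟩
      · exfalso
        rw [h2'] at h3
        have := (hRl g' hg').2
        rw [h3] at this
        exact (hRl g hg).1 this
      · rw [← h3, h3']

/-- The edge `d` is realised by the list of vertices `X`. -/
def Rz (T : SimpleGraph V) (X : List V) (d : ℕ × ℕ) : Prop :=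
  ∃ u v, X[d.1]? = some u ∧ X[d.2]? = some v ∧ T.Adj u v

theorem getElem?_append_some {X Y : List V} {i : ℕ} {u : V} (h : X[i]? = some u) :
    (X ++ Y)[i]? = some u := by
  obtain ⟨hi, -⟩ := List.getElem?_eq_some_iff.1 h
  rw [List.getElem?_append_left hi]
  exact h

theorem Rz.append {X : List V} {d : ℕ × ℕ} (h : Rz T X d) (Y : List V) : Rz T (X ++ Y) d := by
  obtain ⟨u, v, h1, h2, h3⟩ := h
  exact ⟨u, v, getElem?_append_some h1, getElem?_append_some h2, h3⟩

theorem eg_append : ∀ (r r' : List ℕ) (k : ℕ), eg k (r ++ r') = eg k r ++ eg (k + r.length) r' := by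
  intro r
  induction r with
  | nil => intro r' k; rfl
  | cons p r ih =>
    intro r' k
    have h1 : k + 1 + r.length = k + (r.length + 1) := by ring
    simp only [List.cons_append, eg, ih, List.length_cons, h1]

theorem rz_pair {X : List V} {k p : ℕ} {c a b : V} (hX : X.length = 2 * k) (hp : X[p]? = some c)
    (h1 : T.Adj c a) (h2 : T.Adj a b) :
    Rz T (X ++ [a, b]) (p, 2 * k) ∧ Rz T (X ++ [a, b]) (2 * k, 2 * k + 1) := by
  have e1 : (X ++ [a, b])[2 * k]? = some a := by
    rw [List.getElem?_append_right (by omega)]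
    simp [hX]
  have e2 : (X ++ [a, b])[2 * k + 1]? = some b := by
    rw [List.getElem?_append_right (by omega)]
    simp [hX]
  exact ⟨⟨c, a, getElem?_append_some hp, e1, h1⟩, ⟨a, b, e1, e2, h2⟩⟩

omit [Fintype P] in
theorem rz_leaves (h : Setup T m pr) {c : V} : ∀ (H : List P) (X : List V) (k p : ℕ),
    (∀ g ∈ H, T.Adj c (A g)) → X.length = 2 * k → X[p]? = some c →
    ∀ d ∈ eg k (List.replicate H.length p), Rz T (X ++ fv A m H) d := by
  intro H
  induction H with
  | nil => intro X k p _ _ _ d hd; simp [eg] at hd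
  | cons g H ih =>
    intro X k p hH hX hp d hd
    have h0 : X ++ fv A m (g :: H) = (X ++ [A g, m (A g)]) ++ fv A m H := by
      simp [fv]
    obtain ⟨r1, r2⟩ := rz_pair hX hp (hH g (by simp)) (h.madj (A g))
    rw [h0]
    rw [List.length_cons, List.replicate_succ, eg, List.mem_cons, List.mem_cons] at hd
    rcases hd with rfl | rfl | hd
    · exact r1.append _
    · exact r2.append _
    · exact ih (X ++ [A g, m (A g)]) (k + 1) p (fun g' hg' => hH g' (List.mem_cons_of_mem _ hg'))
        (by simp [hX]; ring) (getElem?_append_some hp) d hd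

/-- The parents of the pairs of a list of pendant trees with given types. -/
def rpl : ℕ → ℕ → List (ℕ × ℕ) → List ℕ
  | _, _, [] => []
  | k, p, t :: r => p :: (List.replicate t.1 (2 * k) ++ (List.replicate t.2 (2 * k + 1) ++
      rpl (k + (1 + (t.1 + t.2))) p r))

/-- Number of pairs. -/
def szs : List (ℕ × ℕ) → ℕ
  | [] => 0
  | t :: r => 1 + (t.1 + t.2) + szs r

theorem rpl_length : ∀ (r : List (ℕ × ℕ)) (k p : ℕ), (rpl k p r).length = szs r := by
  intro r
  induction r with
  | nil => intro k p; rfl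
  | cons t r ih =>
    intro k p
    simp only [rpl, szs, List.length_cons, List.length_append, List.length_replicate, ih]
    ring

theorem pv_length (g : P) : (pv L A Cc m g).length =
    2 * (1 + ((tau L A Cc m g).1 + (tau L A Cc m g).2)) := by
  simp only [pv, tau, List.length_cons, List.length_append, fv_length]
  ring

theorem flat_length : ∀ (R : List P), (R.flatMap (pv L A Cc m)).length =
    2 * szs (R.map (tau L A Cc m)) := by
  intro R
  induction R with
  | nil => rfl
  | cons g R ih =>
    simp only [List.flatMap_cons, List.length_append, List.map_cons, szs, pv_length, ih]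
    ring

theorem rz_pendants (h : Setup T m pr) (hL : Spine T pr L A Cc) {c : V} :
    ∀ (R : List P) (X : List V) (k p : ℕ),
    (∀ g ∈ R, T.Adj c (A g)) → X.length = 2 * k → X[p]? = some c →
    ∀ d ∈ eg k (rpl k p (R.map (tau L A Cc m))), Rz T (X ++ R.flatMap (pv L A Cc m)) d := by
  intro R
  induction R with
  | nil => intro X k p _ _ _ d hd; simp [rpl, eg] at hd
  | cons g R ih =>
    intro X k p hR hX hp d hd
    set H1 := plist L Cc (A g) with hH1
    set H2 := plist L Cc (m (A g)) with hH2
    set X1 := X ++ [A g, m (A g)] with hX1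
    set X2 := X1 ++ fv A m H1 with hX2
    set X3 := X2 ++ fv A m H2 with hX3
    have h0 : X ++ (g :: R).flatMap (pv L A Cc m) = X3 ++ R.flatMap (pv L A Cc m) := by
      simp [hX3, hX2, hX1, pv, List.flatMap_cons, hH1, hH2]
    have l1 : X1.length = 2 * (k + 1) := by simp [hX1, hX]; ring
    have l2 : X2.length = 2 * (k + 1 + H1.length) := by
      rw [hX2, List.length_append, l1, fv_length]; ring
    have l3 : X3.length = 2 * (k + (1 + (H1.length + H2.length))) := by
      rw [hX3, List.length_append, l2, fv_length]; ring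
    obtain ⟨r1, r2⟩ := rz_pair hX hp (hR g (by simp)) (h.madj (A g))
    have hadj1 : ∀ g' ∈ H1, T.Adj (A g) (A g') := by
      intro g' hg'
      obtain ⟨h1, h2⟩ := mem_plist.1 hg'
      have := hL.adj g' h1
      rwa [h2] at this
    have hadj2 : ∀ g' ∈ H2, T.Adj (m (A g)) (A g') := by
      intro g' hg'
      obtain ⟨h1, h2⟩ := mem_plist.1 hg'
      have := hL.adj g' h1
      rwa [h2] at this
    have ea : X1[2 * k]? = some (A g) := by
      rw [hX1, List.getElem?_append_right (by omega)]
      simp [hX]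
    have eb : X2[2 * k + 1]? = some (m (A g)) := by
      rw [hX2]
      apply getElem?_append_some
      rw [hX1, List.getElem?_append_right (by omega)]
      simp [hX]
    have hmap : (g :: R).map (tau L A Cc m) =
      (H1.length, H2.length) :: R.map (tau L A Cc m) := rfl
    rw [hmap, rpl, eg, List.mem_cons, List.mem_cons, eg_append, List.mem_append, eg_append,
      List.mem_append] at hd
    simp only [List.length_replicate] at hd
    rw [h0]
    rcases hd with rfl | rfl | hd | hd | hd
    · exact ((r1.append _).append _).append _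
    · exact ((r2.append _).append _).append _
    · exact ((rz_leaves h H1 X1 (k + 1) (2 * k) hadj1 l1 ea d hd).append _).append _
    · exact (rz_leaves h H2 X2 (k + 1 + H1.length) (2 * k + 1) hadj2 l2 eb d hd).append _
    · have h4 : k + 1 + H1.length + H2.length = k + (1 + (H1.length + H2.length)) := by ring
      rw [h4] at hd
      exact ih X3 _ p (fun g' hg' => hR g' (List.mem_cons_of_mem _ hg')) l3
        (getElem?_append_some (getElem?_append_some (getElem?_append_some hp))) d hd

end

end LobW
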